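import Mathlib
import Pool.Agent.Lib.MP_13801a_an.Sts
import Pool.Agent.Lib.MP_13801a_an.ND.StsA

/-!
Definitions and intermediate statements for the window inequality that uses the one dimensional
marginals of the density.
-/

open MeasureTheory Set Filter
open scoped Topology

namespace Pool.Agent.Lib.MP_13801a_an.ND

noncomputable section

variable {N : ℕ}

/-- Kernels on the line with support in `(-r, r)`; `k1` is the derivative of `k`. -/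
structure Kr (r : ℝ) (k k1 : ℝ → ℝ) : Prop where
  der : ∀ u, HasDerivAt k (k1 u) u
  c1 : Continuous k1
  cs : HasCompactSupport k
  cs1 : HasCompactSupport k1
  nonneg : ∀ u, 0 ≤ k u
  one : ∫ u, k u = 1
  supp : ∀ u, r ≤ |u| → k u = 0

theorem Kr.c0 {r : ℝ} {k k1 : ℝ → ℝ} (h : Kr r k k1) : Continuous k :=
  continuous_iff_continuousAt.2 fun u => (h.der u).continuousAt

/-- The smoothed and rescaled marginal of `f` in the coordinate `i`. -/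
def mg (k : ℝ → ℝ) (σ : ℝ) (i : Fin N) (f : E N → ℝ) (y : ℝ) : ℝ := ∫ x, k (y - x i / σ) * f x

/-- The average of `ψ` near `a` with kernel `k`. -/
def avm (k ψ : ℝ → ℝ) (a : ℝ) : ℝ := ∫ u, ψ (a + u) * k u

/-- Densities on the line with two derivatives and a kinetic density `q`. -/
structure Pr (M : ℝ) (ρ ρ1 ρ2 q : ℝ → ℝ) : Prop where
  dens : Dens M ρ
  d0 : ∀ y, HasDerivAt ρ (ρ1 y) y
  d1 : ∀ y, HasDerivAt ρ1 (ρ2 y) y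
  c2 : Continuous ρ2
  cq : Continuous q
  iq : Integrable q
  q0 : ∀ y, 0 ≤ q y
  le : ∀ y, ρ1 y ^ 2 ≤ 4 * ρ y * q y

/-- The virial weight. -/
def Ps (k : ℝ → ℝ) (σ : ℝ) (ψ : Fin N → ℝ → ℝ) (x : E N) : ℝ :=
  σ ^ 2 * ∑ i, avm k (ψ i) (x i / σ)

/-- The gradient of the virial weight. -/
def Xs (k : ℝ → ℝ) (σ : ℝ) (χ : Fin N → ℝ → ℝ) (j : Fin N) (x : E N) : ℝ :=
  σ * avm k (χ j) (x j / σ)

/-- The first derivatives of the virial field. -/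
def X1s (k : ℝ → ℝ) (σ : ℝ) (h : Fin N → ℝ → ℝ) (i j : Fin N) (x : E N) : ℝ :=
  if i = j then avm k (h j) (x j / σ) else 0

/-- The second derivatives of the virial field. -/
def X2s (k1 : ℝ → ℝ) (σ : ℝ) (h : Fin N → ℝ → ℝ) (i j : Fin N) (x : E N) : ℝ :=
  if i = j then -(σ⁻¹ * avm k1 (h j) (x j / σ)) else 0

end

def St_MWMG : Prop := ∀ (N : ℕ) (i : Fin N) (σ : ℝ) (k : ℝ → ℝ) (f : E N → ℝ), Continuous k →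
  HasCompactSupport k → Integrable f →
  (∀ y, Integrable fun x : E N => k (y - x i / σ) * f x) ∧
  Continuous (mg k σ i f) ∧ Integrable (mg k σ i f) ∧ (∃ C : ℝ, ∀ y, |mg k σ i f y| ≤ C) ∧
  (∀ η : ℝ, 0 < η → ∃ R : ℝ, ∀ y, R ≤ |y| → |mg k σ i f y| ≤ η) ∧
  (∀ (ψ : ℝ → ℝ) (B : ℝ), Continuous ψ → (∀ y, |ψ y| ≤ B) →
    (Integrable fun x : E N => avm k ψ (x i / σ) * f x) ∧
    ∫ y, ψ y * mg k σ i f y = ∫ x : E N, avm k ψ (x i / σ) * f x) ∧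
  ∀ k1 : ℝ → ℝ, (∀ u, HasDerivAt k (k1 u) u) → Continuous k1 → HasCompactSupport k1 →
    ∀ y, HasDerivAt (mg k σ i f) (mg k1 σ i f y) y

def St_MWPR : Prop := ∀ (N : ℕ) (i : Fin N) (σ r M : ℝ) (k k1 : ℝ → ℝ) (g : E N → ℂ)
  (dg : Fin N → E N → ℂ), 0 < σ → Kr r k k1 → H1 g dg → ms g ≤ M →
  Pr M (mg k σ i fun x => ‖g x‖ ^ 2) (fun y => σ * mg k σ i (nn g dg i) y)
    (fun y => σ * mg k1 σ i (nn g dg i) y) (fun y => σ ^ 2 * mg k σ i (kd dg) y) ∧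
  ∫ y, σ ^ 2 * mg k σ i (kd dg) y = σ ^ 2 * kin dg

def St_MWCLIMB : Prop := ∀ (ρ ρ1 q : ℝ → ℝ) (ε x s : ℝ), (∀ y, HasDerivAt ρ (ρ1 y) y) →
  Continuous ρ1 → Continuous q → (∀ y, 0 ≤ ρ y) → (∀ y, 0 ≤ q y) →
  (∀ y, ρ1 y ^ 2 ≤ 4 * ρ y * q y) → 0 < ε → ρ x ≤ ε → ε ≤ mm ρ x s →
  (ε - ρ x) ^ 2 ≤ 64 * |s| * ε ^ 2 * ∫ z in uIoc x (x + s), ρ z / (ρ z + ε) ^ 2 * q z

def St_MWDISP : Prop := ∀ (ε1 ε2 S M : ℝ) (w w' ρ ρ1 ρ2 q : ℝ → ℝ), Wt ε1 ε2 S w w' →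
  Pr M ρ ρ1 ρ2 q → |∫ y, hh w ρ y * ρ2 y| ≤ 800 * ∫ y, q y

def St_MWAV : Prop := ∀ (r : ℝ) (k k1 : ℝ → ℝ), Kr r k k1 →
  (∀ (ψ χ : ℝ → ℝ), (∀ y, HasDerivAt ψ (χ y) y) → Continuous χ →
    ∀ a, HasDerivAt (avm k ψ) (avm k χ a) a) ∧
  ∀ h : ℝ → ℝ, Continuous h → (∀ a, HasDerivAt (avm k h) (-avm k1 h a) a) ∧
    (∀ lo hi : ℝ, (∀ y, lo ≤ h y ∧ h y ≤ hi) → ∀ a, lo ≤ avm k h a ∧ avm k h a ≤ hi) ∧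
    (∀ B : ℝ, (∀ y, |h y| ≤ B) → ∀ a, |avm k h a| ≤ B ∧ |avm k1 h a| ≤ B * ∫ u, |k1 u|) ∧
    ∀ a c : ℝ, (∀ y, |y - a| ≤ r → h y = c) → avm k h a = c

def St_MWFLD : Prop := ∀ (N : ℕ) (σ r B : ℝ) (k k1 : ℝ → ℝ) (ψ χ h : Fin N → ℝ → ℝ), 0 < σ →
  0 ≤ B → Kr r k k1 → (∀ i y, HasDerivAt (ψ i) (χ i y) y) → (∀ i y, HasDerivAt (χ i) (h i y) y) →
  (∀ i, Continuous (h i)) → (∀ i y, |ψ i y| ≤ B ∧ |χ i y| ≤ B ∧ |h i y| ≤ B) →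
  BW (Ps k σ ψ) (Xs k σ χ) ∧ VF (Xs k σ χ) (X1s k σ h) (X2s k1 σ h) ∧
    ∀ i j x, |X1s k σ h i j x| ≤ B ∧ |X2s k1 σ h i j x| ≤ σ⁻¹ * (B * ∫ u, |k1 u|)

def St_MWEXP : Prop := ∀ (M : ℝ) (ρ : ℝ → ℝ), Dens M ρ → ∀ y l : ℝ, 0 < l →
  ∫ z, Real.exp (-(|z - y| / l)) * ρ z ≤ 2 * l * em ρ y

def St_MWHIGH : Prop := ∀ (N : ℕ) (i : Fin N) (σ r r0 Θ M : ℝ) (k k1 : ℝ → ℝ) (ρ : E N → ℝ),
  0 < σ → 0 < r0 → 0 < Θ → 4 * σ * r ≤ r0 → Kr r k k1 → Integrable ρ → (∀ x, 0 ≤ ρ x) →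
  Dens M (mg k σ i ρ) → ∀ x, x ∉ Sp 1 Θ r0 ρ → ∀ y, |y - x i / σ| ≤ r →
  Θ * σ / 6 ≤ em (mg k σ i ρ) y

def St_MWHED : Prop := ∀ (N : ℕ) (α : ℝ), 0 < α → 1 ≤ N → α * (N - 1) ≤ 4 →
  ∃ C : ℝ, 0 ≤ C ∧ ∀ p Θ R B η : ℝ, α + 2 < p → 0 < Θ → 0 < R → 0 < η → ∃ r0 : ℝ, 0 < r0 ∧
    ∀ (g : E N → ℂ) (K : ℝ), 0 ≤ K → TL g K → Mem (α + 2) g → Mem p g → nr p g ≤ B →
      MeasurableSet (Sp 1 Θ r0 fun x => ‖g x‖ ^ 2) ∧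
      ∫ x in Sp 1 Θ r0 fun x => ‖g x‖ ^ 2, ‖g x‖ ^ (α + 2) ≤
        C * Θ ^ (α / 2) * (R ^ (2 - α * (N - 1) / 2) * K + R ^ (-(α * (N - 1) / 2)) * ms g) + η

def St_MWLOW : Prop := ∀ (N : ℕ) (α lam ε1 ε2 S M σ r r0 Θ : ℝ) (w w' k k1 : ℝ → ℝ)
  (g : E N → ℂ) (dg : Fin N → E N → ℂ), 0 < α → 0 ≤ lam → Wt ε1 ε2 S w w' → Kr r k k1 →
  H1 g dg → Mem (α + 2) g → ms g ≤ M → 0 < σ → 0 < r0 → 0 < Θ → 4 * σ * r ≤ r0 →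
  6 * ε2 ≤ Θ * σ → MeasurableSet (Sp 1 Θ r0 fun x => ‖g x‖ ^ 2) →
  -((4 * S + 800 * N) * kin dg) + 2 * α / (α + 2) * lam * N *
      (S * pw α g - (S + 1) * ∫ x in Sp 1 Θ r0 fun x => ‖g x‖ ^ 2, ‖g x‖ ^ (α + 2)) ≤
    vir α lam (X1s k σ fun i => hh w (mg k σ i fun x => ‖g x‖ ^ 2))
      (X2s k1 σ fun i => hh w (mg k σ i fun x => ‖g x‖ ^ 2)) g dg

end Pool.Agent.Lib.MP_13801a_an.ND
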