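import Mathlib
import Pool.Agent.Lib.MP_13801a_an.ND.MW.Sts

/-!
Averaged weights on the line and the virial field built from them.
-/

open MeasureTheory Set Filter
open scoped Topology

namespace Pool.Agent.Lib.MP_13801a_an.ND

theorem MWAV_int {k ψ : ℝ → ℝ} (hk : Continuous k) (hc : HasCompactSupport k)
    (hψ : Continuous ψ) (a : ℝ) : Integrable fun u => ψ (a + u) * k u := by
  have h1 : Continuous fun u => ψ (a + u) * k u := by fun_prop
  exact h1.integrable_of_hasCompactSupport hc.mul_left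

theorem MWAV_shift (k h : ℝ → ℝ) (a : ℝ) : avm k h a = ∫ y, h y * k (y - a) := by
  unfold avm
  rw [← integral_add_left_eq_self (fun y => h y * k (y - a)) a]
  simp

theorem MWAV_abs {k h : ℝ → ℝ} (hk : Continuous k) (hc : HasCompactSupport k)
    {B : ℝ} (hB : ∀ y, |h y| ≤ B) (a : ℝ) : |avm k h a| ≤ B * ∫ u, |k u| := by
  unfold avm
  rw [← integral_const_mul, ← Real.norm_eq_abs]
  refine norm_integral_le_of_norm_le
    ((hk.integrable_of_hasCompactSupport hc).abs.const_mul B) (Eventually.of_forall fun u => ?_)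
  rw [Real.norm_eq_abs, abs_mul]
  exact mul_le_mul_of_nonneg_right (hB _) (abs_nonneg _)

theorem MWAV_one {r : ℝ} {k k1 : ℝ → ℝ} (hk : Kr r k k1) {ψ χ : ℝ → ℝ}
    (hd : ∀ y, HasDerivAt ψ (χ y) y) (hχ : Continuous χ) (a : ℝ) :
    HasDerivAt (avm k ψ) (avm k χ a) a := by
  have hψ : Continuous ψ := continuous_iff_continuousAt.2 fun u => (hd u).continuousAt
  have hk0 := hk.c0
  obtain ⟨C, hC⟩ := (isCompact_Icc (a := a - 1 - r) (b := a + 1 + r)).exists_bound_of_continuousOn
    hχ.continuousOn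
  have key := hasDerivAt_integral_of_dominated_loc_of_deriv_le (μ := volume) (x₀ := a)
    (F := fun x u => ψ (x + u) * k u) (F' := fun x u => χ (x + u) * k u)
    (bound := fun u => C * |k u|) (s := Icc (a - 1) (a + 1))
    (Icc_mem_nhds (by linarith) (by linarith))
    (Eventually.of_forall fun x => (MWAV_int hk0 hk.cs hψ x).aestronglyMeasurable)
    (MWAV_int hk0 hk.cs hψ a) (MWAV_int hk0 hk.cs hχ a).aestronglyMeasurable
    (Eventually.of_forall fun u x hx => ?_)
    ((hk0.integrable_of_hasCompactSupport hk.cs).abs.const_mul C)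
    (Eventually.of_forall fun u x _ => ((hd (x + u)).comp_add_const x u).mul_const (k u))
  · exact key.2
  · rcases le_or_gt r |u| with hu | hu
    · simp [hk.supp u hu]
    · rw [norm_mul, Real.norm_eq_abs (k u)]
      refine mul_le_mul_of_nonneg_right (hC _ ?_) (abs_nonneg _)
      have h1 := abs_lt.1 hu
      exact ⟨by linarith [hx.1, h1.1], by linarith [hx.2, h1.2]⟩

theorem MWAV_two {r : ℝ} {k k1 : ℝ → ℝ} (hk : Kr r k k1) {h : ℝ → ℝ} (hh : Continuous h) (a : ℝ) :
    HasDerivAt (avm k h) (-avm k1 h a) a := by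
  have hk0 := hk.c0
  have hk1 := hk.c1
  obtain ⟨R, -, hR⟩ := hk.cs1.exists_pos_le_norm
  obtain ⟨C, hC⟩ := hk1.bounded_above_of_compact_support hk.cs1
  have hC0 : 0 ≤ C := (norm_nonneg _).trans (hC 0)
  have hi : ∀ (g : ℝ → ℝ), Continuous g → HasCompactSupport g → ∀ x : ℝ,
      Integrable fun y => h y * g (y - x) := by
    intro g hg hgc x
    have h1 := (MWAV_int hg hgc hh x).comp_sub_right x
    simpa using h1
  have hb : Integrable ((Icc (a - 1 - R) (a + 1 + R)).indicator fun y => |h y| * C) := by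
    rw [integrable_indicator_iff measurableSet_Icc]
    exact (Continuous.continuousOn (by fun_prop)).integrableOn_Icc
  have key := hasDerivAt_integral_of_dominated_loc_of_deriv_le (μ := volume) (x₀ := a)
    (F := fun x y => h y * k (y - x)) (F' := fun x y => -(h y * k1 (y - x)))
    (bound := (Icc (a - 1 - R) (a + 1 + R)).indicator fun y => |h y| * C)
    (s := Icc (a - 1) (a + 1))
    (Icc_mem_nhds (by linarith) (by linarith))
    (Eventually.of_forall fun x => (hi k hk0 hk.cs x).aestronglyMeasurable)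
    (hi k hk0 hk.cs a) (hi k1 hk1 hk.cs1 a).neg.aestronglyMeasurable
    (Eventually.of_forall fun y x hx => ?_) hb
    (Eventually.of_forall fun y x _ => ?_)
  · have e1 : avm k h = fun x => ∫ y, h y * k (y - x) := funext fun x => MWAV_shift k h x
    rw [e1, MWAV_shift, ← integral_neg]
    exact key.2
  · by_cases hy : y ∈ Icc (a - 1 - R) (a + 1 + R)
    · rw [indicator_of_mem hy, norm_neg, norm_mul, Real.norm_eq_abs (h y)]
      exact mul_le_mul_of_nonneg_left (hC _) (abs_nonneg _)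
    · rw [indicator_of_notMem hy]
      have h1 : R ≤ ‖y - x‖ := by
        rw [Real.norm_eq_abs]
        by_contra h2
        have h3 := abs_lt.1 (not_le.1 h2)
        exact hy ⟨by linarith [hx.1, h3.1], by linarith [hx.2, h3.2]⟩
      simp [hR _ h1]
  · have h1 := ((hk.der (y - x)).comp_const_sub y x).const_mul (h y)
    simpa using h1

theorem MWAV_const {r : ℝ} {k k1 : ℝ → ℝ} (hk : Kr r k k1) (c : ℝ) : ∫ u, c * k u = c := by
  rw [integral_const_mul, hk.one, mul_one]

theorem MWAV_between {r : ℝ} {k k1 : ℝ → ℝ} (hk : Kr r k k1) {h : ℝ → ℝ} (hh : Continuous h)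
    {lo hi : ℝ} (hb : ∀ y, lo ≤ h y ∧ h y ≤ hi) (a : ℝ) : lo ≤ avm k h a ∧ avm k h a ≤ hi := by
  have hki : Integrable k := hk.c0.integrable_of_hasCompactSupport hk.cs
  have h1 := MWAV_int hk.c0 hk.cs hh a
  constructor
  · rw [← MWAV_const hk lo]
    exact integral_mono (hki.const_mul lo) h1 fun u =>
      mul_le_mul_of_nonneg_right (hb _).1 (hk.nonneg u)
  · rw [← MWAV_const hk hi]
    exact integral_mono h1 (hki.const_mul hi) fun u =>
      mul_le_mul_of_nonneg_right (hb _).2 (hk.nonneg u)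

theorem MWAV : St_MWAV := by
  intro r k k1 hk
  refine ⟨fun ψ χ hd hχ a => MWAV_one hk hd hχ a, fun h hh => ⟨fun a => MWAV_two hk hh a,
    fun lo hi hb a => MWAV_between hk hh hb a, fun B hB a => ⟨?_, MWAV_abs hk.c1 hk.cs1 hB a⟩,
    fun a c hc => ?_⟩⟩
  · exact abs_le.2 (MWAV_between hk hh (fun y => abs_le.1 (hB y)) a)
  · rw [← MWAV_const hk c]
    unfold avm
    refine integral_congr_ae (Eventually.of_forall fun u => ?_)
    rcases le_or_gt r |u| with hu | hu
    · simp [hk.supp u hu]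
    · have := hc (a + u) (by simpa using hu.le)
      simp [this]

theorem MWAV_line {N : ℕ} {Φ : ℝ → ℝ} {Φ' σ : ℝ} {i : Fin N} {x : E N}
    (h : HasDerivAt Φ Φ' (x i / σ)) (j : Fin N) :
    HasLineDerivAt ℝ (fun x : E N => Φ (x i / σ)) (if j = i then Φ' / σ else 0) x (ee j) := by
  unfold HasLineDerivAt
  by_cases hj : j = i
  · subst hj
    have h1 : HasDerivAt (fun t : ℝ => (x j + t) / σ) (1 / σ) 0 :=
      ((hasDerivAt_id' (0 : ℝ)).const_add (x j)).div_const σ
    have h2 : HasDerivAt Φ Φ' ((x j + 0) / σ) := by simpa using h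
    have h3 := h2.comp (0 : ℝ) h1
    rw [if_pos rfl]
    have e : (fun t : ℝ => Φ ((x + t • ee j : E N) j / σ)) = Φ ∘ fun t : ℝ => (x j + t) / σ := by
      funext t
      simp [ee]
    rw [e]
    refine h3.congr_deriv ?_
    ring
  · rw [if_neg hj]
    have e : (fun t : ℝ => Φ ((x + t • ee j : E N) i / σ)) = fun _ => Φ (x i / σ) := by
      funext t
      simp [ee, Ne.symm hj]
    rw [e]
    exact hasDerivAt_const _ _

theorem MWFLD (h1 : St_MWAV) : St_MWFLD := by
  intro N σ r B k k1 ψ χ h hσ hB hk hψ hχ hh hb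
  obtain ⟨hA, hH⟩ := h1 r k k1 hk
  have cχ : ∀ i, Continuous (χ i) := fun i =>
    continuous_iff_continuousAt.2 fun u => (hχ i u).continuousAt
  have cψ : ∀ i, Continuous (ψ i) := fun i =>
    continuous_iff_continuousAt.2 fun u => (hψ i u).continuousAt
  have bψ : ∀ i a, |avm k (ψ i) a| ≤ B := fun i a =>
    ((hH _ (cψ i)).2.2.1 B (fun y => (hb i y).1) a).1
  have bχ : ∀ i a, |avm k (χ i) a| ≤ B := fun i a =>
    ((hH _ (cχ i)).2.2.1 B (fun y => (hb i y).2.1) a).1
  have bh : ∀ i a, |avm k (h i) a| ≤ B ∧ |avm k1 (h i) a| ≤ B * ∫ u, |k1 u| := fun i a =>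
    (hH _ (hh i)).2.2.1 B (fun y => (hb i y).2.2) a
  have hI : 0 ≤ ∫ u, |k1 u| := integral_nonneg fun u => abs_nonneg _
  have bX : ∀ (j : Fin N) (x : E N), |Xs k σ χ j x| ≤ σ * B := by
    intro j x
    unfold Xs
    rw [abs_mul, abs_of_pos hσ]
    exact mul_le_mul_of_nonneg_left (bχ j _) hσ.le
  have b12 : ∀ (i j : Fin N) (x : E N), |X1s k σ h i j x| ≤ B ∧
      |X2s k1 σ h i j x| ≤ σ⁻¹ * (B * ∫ u, |k1 u|) := by
    intro i j x
    unfold X1s X2s
    by_cases hij : i = j
    · rw [if_pos hij, if_pos hij, abs_neg, abs_mul, abs_of_pos (inv_pos.2 hσ)]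
      exact ⟨(bh j _).1, mul_le_mul_of_nonneg_left (bh j _).2 (inv_pos.2 hσ).le⟩
    · rw [if_neg hij, if_neg hij, abs_zero]
      exact ⟨hB, by positivity⟩
  refine ⟨⟨fun j x => ?_, σ ^ 2 * (N * B) + σ * B, fun x => ⟨?_, fun i => ?_⟩⟩,
    ⟨fun i j x => ?_, fun i j x => ?_, σ * B + B + σ⁻¹ * (B * ∫ u, |k1 u|), fun i j x => ?_⟩, b12⟩
  · have h2 : ∀ i ∈ (Finset.univ : Finset (Fin N)), HasDerivAt
        (fun t : ℝ => avm k (ψ i) ((x + t • ee j : E N) i / σ))
        (if j = i then avm k (χ i) (x i / σ) / σ else 0) 0 := fun i _ =>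
      MWAV_line (hA (ψ i) (χ i) (hψ i) (cχ i) (x i / σ)) j
    have h3 := (HasDerivAt.fun_sum h2).const_mul (σ ^ 2)
    unfold HasLineDerivAt Ps Xs
    refine h3.congr_deriv ?_
    rw [Finset.sum_ite_eq]
    simp only [Finset.mem_univ, if_true]
    field_simp
  · unfold Ps
    rw [abs_mul, abs_of_pos (pow_pos hσ 2)]
    have h2 : |∑ i, avm k (ψ i) (x i / σ)| ≤ N * B := by
      refine (Finset.abs_sum_le_sum_abs _ _).trans ?_
      calc ∑ i, |avm k (ψ i) (x i / σ)| ≤ ∑ _i : Fin N, B := Finset.sum_le_sum fun i _ => bψ i _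
        _ = N * B := by simp
    have h3 := mul_le_mul_of_nonneg_left h2 (pow_pos hσ 2).le
    have h4 : 0 ≤ σ * B := by positivity
    linarith
  · have h4 : 0 ≤ σ ^ 2 * (N * B) := by positivity
    linarith [bX i x]
  · have h2 : HasDerivAt (fun t : ℝ => avm k (χ j) ((x + t • ee i : E N) j / σ))
        (if i = j then avm k (h j) (x j / σ) / σ else 0) 0 :=
      MWAV_line (hA (χ j) (h j) (hχ j) (hh j) (x j / σ)) i
    have h3 := h2.const_mul σ
    unfold HasLineDerivAt Xs X1s
    refine h3.congr_deriv ?_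
    split_ifs
    · field_simp
    · simp
  · by_cases hij : i = j
    · have h2 := MWAV_line ((hH (h j) (hh j)).1 (x j / σ)) i
      have e : X1s k σ h i j = fun x : E N => avm k (h j) (x j / σ) := by
        funext y
        simp [X1s, hij]
      rw [e]
      convert h2 using 1
      simp only [X2s, if_pos hij]
      field_simp
    · have e : X1s k σ h i j = fun _ : E N => 0 := by
        funext y
        simp [X1s, hij]
      rw [e]
      simp only [X2s, if_neg hij]
      exact hasDerivAt_const _ _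
  · have h4 : 0 ≤ σ * B := by positivity
    have h5 : 0 ≤ σ⁻¹ * (B * ∫ u, |k1 u|) := by positivity
    exact ⟨by linarith [bX j x], by linarith [(b12 i j x).1], by linarith [(b12 i j x).2]⟩

end Pool.Agent.Lib.MP_13801a_an.ND
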