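import Mathlib
import Pool.Agent.Lib.MP_13801a_an.ND.MW.Sts

/-!
The window inequality from the convex functional of the marginals.
-/

open MeasureTheory Set Filter
open scoped Topology

namespace Pool.Agent.Lib.MP_13801a_an.ND

theorem MWC_step {A J V : ℝ → ℝ} {s τ m : ℝ} (hτ : 0 ≤ τ)
    (hA : ∀ t ∈ Icc (s - τ) (s + τ), HasDerivAt A (J t) t)
    (hJ : ∀ t ∈ Icc (s - τ) (s + τ), HasDerivAt J (V t) t)
    (hV : ∀ t ∈ Icc (s - τ) (s + τ), m ≤ V t) :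
    m * τ ^ 2 ≤ A (s + τ) + A (s - τ) - 2 * A s := by
  have h1 : ∀ t ∈ Icc 0 τ, m * (s + t - (s - t)) ≤ J (s + t) - J (s - t) := by
    intro t ht
    refine (convex_Icc (s - τ) (s + τ)).mul_sub_le_image_sub_of_le_deriv
      (fun x hx => (hJ x hx).continuousAt.continuousWithinAt)
      (fun x hx => (hJ x (interior_subset hx)).differentiableAt.differentiableWithinAt)
      (fun x hx => ?_) _ ⟨by linarith [ht.2], by linarith [ht.1]⟩ _
      ⟨by linarith [ht.1], by linarith [ht.2]⟩ (by linarith [ht.1])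
    rw [(hJ x (interior_subset hx)).deriv]
    exact hV x (interior_subset hx)
  have h2 : ∀ t ∈ Icc 0 τ, HasDerivAt (fun t => A (s + t) + A (s - t) - m * t ^ 2)
      (J (s + t) - J (s - t) - m * (2 * t)) t := by
    intro t ht
    have a1 := (hA (s + t) ⟨by linarith [ht.1], by linarith [ht.2]⟩).comp_const_add s t
    have a2 := (hA (s - t) ⟨by linarith [ht.2], by linarith [ht.1]⟩).comp_const_sub s t
    have a3 := (hasDerivAt_pow 2 t).const_mul m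
    refine ((a1.add a2).sub a3).congr_deriv ?_
    simp only [Nat.cast_ofNat, Nat.add_one_sub_one, pow_one]
    ring
  have h3 := (convex_Icc 0 τ).mul_sub_le_image_sub_of_le_deriv (C := 0)
    (fun x hx => (h2 x hx).continuousAt.continuousWithinAt)
    (fun x hx => (h2 x (interior_subset hx)).differentiableAt.differentiableWithinAt)
    (fun x hx => by
      rw [(h2 x (interior_subset hx)).deriv]
      linarith [h1 x (interior_subset hx)]) 0 ⟨le_rfl, hτ⟩ τ ⟨hτ, le_rfl⟩ hτ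
  simp only [add_zero, sub_zero] at h3
  linarith

theorem MWC_num {α N S K P Ps lam Λ F0 Ch δ η : ℝ} (hα : 0 < α) (hN : 1 ≤ N) (hc : 4 < N * α)
    (hS1 : 1 ≤ S) (hS2 : 800 * N + 1 ≤ (N * α - 4) * S) (hK : 0 ≤ K) (hlam : 0 ≤ lam)
    (hPs0 : 0 ≤ Ps) (hΛ : lam ≤ Λ) (hF : 0 < F0) (hen : F0 ≤ -(K / 2 - lam * P / (α + 2)))
    (hPs : Λ * Ps ≤ Ch * δ * (K + F0) + Λ * η) (hδ : 2 * N * (S + 1) * (Ch * δ) ≤ 1)
    (hη : 2 * N * (S + 1) * (Λ * η) ≤ F0) :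
    6 * F0 ≤ -((4 * S + 800 * N) * K) + 2 * α / (α + 2) * lam * N * (S * P - (S + 1) * Ps) := by
  have hα2 : 0 < α + 2 := by linarith
  obtain ⟨c, hcd⟩ : ∃ c, c = 2 * α / (α + 2) := ⟨_, rfl⟩
  have hc0 : 0 ≤ c := by rw [hcd]; positivity
  have hc2 : c ≤ 2 := by rw [hcd, div_le_iff₀ hα2]; linarith
  have e1 : c * lam * N * (S * P) = 2 * (N * α) * S * (lam * P / (α + 2)) := by
    rw [hcd]; field_simp
  have h1 : 2 * (N * α) * S * (K / 2 + F0) ≤ 2 * (N * α) * S * (lam * P / (α + 2)) :=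
    mul_le_mul_of_nonneg_left (by linarith) (by positivity)
  have h2 : c * lam * N * ((S + 1) * Ps) ≤ 2 * N * (S + 1) * (Λ * Ps) := by
    have a1 : c * lam ≤ 2 * Λ := mul_le_mul hc2 hΛ hlam (by norm_num)
    have a2 : 0 ≤ N * ((S + 1) * Ps) := by positivity
    nlinarith [mul_le_mul_of_nonneg_right a1 a2]
  have h3 : 2 * N * (S + 1) * (Λ * Ps) ≤ 2 * N * (S + 1) * (Ch * δ * (K + F0) + Λ * η) :=
    mul_le_mul_of_nonneg_left hPs (by positivity)
  have h4 : 2 * N * (S + 1) * (Ch * δ) * (K + F0) ≤ 1 * (K + F0) :=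
    mul_le_mul_of_nonneg_right hδ (by positivity)
  have h5 : (800 * N + 1) * K ≤ (N * α - 4) * S * K := mul_le_mul_of_nonneg_right hS2 hK
  have h6 : 4 * 1 * F0 ≤ N * α * S * F0 :=
    mul_le_mul_of_nonneg_right (mul_le_mul hc.le hS1 (by norm_num) (by linarith)) hF.le
  rw [← hcd]
  nlinarith

theorem MWC_ker (h : MP_13801a_an.St_MOL) {r : ℝ} (hr : 0 < r) : ∃ k k1, Kr r k k1 := by
  obtain ⟨h1, h2, h3, h4⟩ := h.1 r hr
  have h5 := h1.deriv
  exact ⟨_, _, fun u => (h1.1.differentiable (by simp) u).hasDerivAt, h5.1.continuous, h1.2, h5.2,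
    h2, h3, h4⟩

theorem MWC_core (h1 : St_BASIC) (h2 : St_TL) (h3 : St_VCONT) (h4 : St_LMASS) (h5 : St_MOM)
    (m1 : St_MWMG) (m2 : St_MWPR) (m3 : St_MWFLD) (m4 : St_MWHED) (m5 : St_MWLOW)
    (o1 : MP_13801a_an.St_MOL) (o2 : St_WGT) (o3 : St_HH) (o4 : St_STAT) (o5 : St_STEP) :
    St_MWIN := by
  intro N α M hc hb hM
  have hN0 : (0 : ℝ) ≤ N := Nat.cast_nonneg N
  have hα : 0 < α := by
    by_contra h
    nlinarith [mul_nonneg hN0 (neg_nonneg.2 (not_lt.1 h))]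
  have hN1 : 1 ≤ N := by
    rcases Nat.eq_zero_or_pos N with rfl | h
    · norm_num at hc
    · exact h
  have hN : (1 : ℝ) ≤ N := by exact_mod_cast hN1
  have hsub : Sub N α := ⟨hN1, hα, by nlinarith⟩
  obtain ⟨ε1, S, w, w', hW, hS0⟩ := o2 1 (max 1 ((800 * N + 1) / (N * α - 4))) one_pos
  have hS1 : 1 ≤ S := (le_max_left _ _).trans hS0
  have hS2 : 800 * N + 1 ≤ (N * α - 4) * S := by
    have := (le_max_right _ _).trans hS0
    rwa [div_le_iff₀' (by linarith)] at this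
  obtain ⟨B, U, hU⟩ := o4 ε1 1 S M w w' hW
  obtain ⟨B1, hB1⟩ : ∃ B1, B1 = max B (S + 1) := ⟨_, rfl⟩
  have hBB : B ≤ B1 := hB1 ▸ le_max_left _ _
  have hSB : S + 1 ≤ B1 := hB1 ▸ le_max_right _ _
  have hB10 : 0 ≤ B1 := by linarith
  obtain ⟨Ch, hCh, hhed⟩ := m4 N α hα hN1 hb
  obtain ⟨δ, hδ⟩ : ∃ δ, δ = 1 / (2 * N * (S + 1) * (Ch + 1)) := ⟨_, rfl⟩
  have hδ0 : 0 < δ := by rw [hδ]; positivity
  have hδ1 : 2 * N * (S + 1) * (Ch * δ) ≤ 1 := by
    have e : 2 * N * (S + 1) * ((Ch + 1) * δ) = 1 := by rw [hδ]; field_simp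
    have : 0 ≤ 2 * N * (S + 1) * δ := by positivity
    nlinarith
  obtain ⟨b, hbd⟩ : ∃ b, b = 1 - α * (N - 1) / 4 := ⟨_, rfl⟩
  refine ⟨60 * N * B1 * (M ^ b / δ) ^ (4 / α), by positivity, ?_⟩
  intro κ v dv hκ hS hms t1 T F0 ht1 hT hF hen
  rw [← hbd]
  obtain ⟨Λ, hΛ⟩ : ∃ Λ, Λ = Real.exp (κ * (t1 + T)) := ⟨_, rfl⟩
  rw [← hΛ]
  have hΛ0 : 0 < Λ := hΛ ▸ Real.exp_pos _
  obtain ⟨Θ, hΘ⟩ : ∃ Θ, Θ = (δ * (F0 / M) ^ b / Λ) ^ (2 / α) := ⟨_, rfl⟩
  have hΘ0 : 0 < Θ := by rw [hΘ]; positivity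
  have hΘ1 : Θ ^ (α / 2) = δ * (F0 / M) ^ b / Λ := by
    rw [hΘ, ← Real.rpow_mul (by positivity), show 2 / α * (α / 2) = 1 by field_simp,
      Real.rpow_one]
  obtain ⟨σ, hσ⟩ : ∃ σ, σ = 6 / Θ := ⟨_, rfl⟩
  have hσ0 : 0 < σ := by rw [hσ]; positivity
  have hσ1 : 6 * 1 ≤ Θ * σ := by rw [hσ]; field_simp; rfl
  have hσ2 : σ ^ 2 = 36 * ((M ^ b / δ) ^ (4 / α) * (Λ / F0 ^ b) ^ (4 / α)) := by
    have e1 : M ^ b / δ * (Λ / F0 ^ b) = (δ * (F0 / M) ^ b / Λ)⁻¹ := by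
      rw [Real.div_rpow hF.le hM.le]
      field_simp
    rw [← Real.mul_rpow (by positivity) (by positivity), e1, Real.inv_rpow (by positivity), hσ, hΘ,
      div_pow, ← Real.rpow_natCast (_ ^ (2 / α)), ← Real.rpow_mul (by positivity),
      show 2 / α * ((2 : ℕ) : ℝ) = 4 / α by push_cast; ring]
    rw [div_eq_mul_inv]
    norm_num
  obtain ⟨-, -, -, hLp, hmem, -⟩ := h1 N α κ v dv hsub hS
  obtain ⟨hp1, hp2, -⟩ := hLp (α + 2 + α / N) (by
    have : 0 < α / N := by positivity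
    linarith) (by
    have e : ((N : ℝ) - 2) * (α / N) = α - 2 * (α / N) := by field_simp
    have : 0 < α / N := by positivity
    nlinarith)
  obtain ⟨Bp, hBp⟩ := (isCompact_Icc (a := t1) (b := t1 + T)).exists_bound_of_continuousOn
    hp2.continuousOn
  obtain ⟨η, hη⟩ : ∃ η, η = F0 / (2 * N * (S + 1) * Λ) := ⟨_, rfl⟩
  have hη0 : 0 < η := by rw [hη]; positivity
  have hη1 : 2 * N * (S + 1) * (Λ * η) ≤ F0 := by rw [hη]; field_simp; rfl
  have hR : 0 < √(M / F0) := by positivity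
  obtain ⟨r0, hr0, hhed⟩ := hhed (α + 2 + α / N) Θ √(M / F0) Bp η
    (lt_add_of_pos_right _ (by positivity)) hΘ0 hR hη0
  obtain ⟨r, hr⟩ : ∃ r, r = r0 / (4 * σ) := ⟨_, rfl⟩
  have hr1 : 0 < r := by rw [hr]; positivity
  have hr2 : 4 * σ * r ≤ r0 := by rw [hr]; field_simp; rfl
  obtain ⟨k, k1, hk⟩ := MWC_ker o1 hr1
  obtain ⟨τ0, hτ0, hvc⟩ := h3 N α κ v dv hsub hS (t1 + T)
    (max B1 (σ⁻¹ * (B1 * ∫ u, |k1 u|))) F0 hF
  obtain ⟨n, hn⟩ := exists_nat_gt (T / 2 / τ0)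
  have hn0 : (0 : ℝ) < n := lt_trans (by positivity) hn
  obtain ⟨τ, hτ⟩ : ∃ τ, τ = T / 2 / n := ⟨_, rfl⟩
  have hτpos : 0 < τ := by rw [hτ]; positivity
  have hnτ : n * τ = T / 2 := by rw [hτ]; field_simp
  have hττ : τ ≤ τ0 := by
    rw [hτ, div_le_iff₀ hn0]
    rw [div_lt_iff₀ hτ0] at hn
    linarith
  have hD : ∀ t, 0 ≤ t → ∀ i, Dens M (mg k σ i fun x => ‖v t x‖ ^ 2) := fun t ht i =>
    (m2 N i σ r M k k1 (v t) (dv t) hσ0 hk (hS.h1 t) (hms t ht).le).1.dens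
  obtain ⟨a, ha⟩ : ∃ a : ℝ → ℝ, a = fun t => σ ^ 2 * ∑ i, U (mg k σ i fun x => ‖v t x‖ ^ 2) :=
    ⟨_, rfl⟩
  have step : ∀ s, t1 ≤ s - τ → s + τ ≤ t1 + T →
      5 * F0 * τ ^ 2 ≤ a (s + τ) + a (s - τ) - 2 * a s := by
    intro s hs1 hs2
    have hs0 : 0 ≤ s := by linarith
    have hsI : s ∈ Icc t1 (t1 + T) := ⟨by linarith, by linarith⟩
    choose ψ χ hψ hχ hbd' hsg using fun i => (hU _ (hD s hs0 i)).2.2
    have hh' := fun i => o3 ε1 1 S M w w' _ hW (hD s hs0 i)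
    obtain ⟨f1, f2, f3⟩ := m3 N σ r B1 k k1 ψ χ (fun i => hh w (mg k σ i fun x => ‖v s x‖ ^ 2))
      hσ0 hB10 hk hψ hχ (fun i => (hh' i).1.choose_spec.continuous) fun i y =>
        ⟨(hbd' i y).1.trans hBB, (hbd' i y).2.trans hBB,
          abs_le.2 ⟨by linarith [((hh' i).2.1 y).1], by linarith [((hh' i).2.1 y).2]⟩⟩
    obtain ⟨hA, hPs⟩ := hhed (v s) (kin (dv s)) (kin_nonneg _) (h2 N _ _ (hS.h1 s)) (hmem s).1
      (hp1 s) ((le_abs_self _).trans (hBp s hsI))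
    have hlam : Real.exp (κ * s) ≤ Λ := by
      rw [hΛ]
      exact Real.exp_le_exp.2 (mul_le_mul_of_nonneg_left hsI.2 hκ)
    have hlow := m5 N α (Real.exp (κ * s)) ε1 1 S M σ r r0 Θ w w' k k1 (v s) (dv s) hα
      (Real.exp_pos _).le hW hk (hS.h1 s) (hmem s).1 (hms s hs0).le hσ0 hr0 hΘ0 hr2 hσ1 hA
    have hnum := MWC_num (K := kin (dv s)) (P := pw α (v s)) (Ch := Ch) (δ := δ) (η := η)
      (Ps := ∫ x in Sp 1 Θ r0 fun x => ‖v s x‖ ^ 2, ‖v s x‖ ^ (α + 2)) hα hN hc hS1 hS2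
      (kin_nonneg _) (Real.exp_pos (κ * s)).le (integral_nonneg fun x => by positivity) hlam hF
      (hen s hsI) (by
        have e1 : √(M / F0) ^ (2 - α * (N - 1) / 2) = (M / F0) ^ b := by
          rw [Real.sqrt_eq_rpow, ← Real.rpow_mul (by positivity), hbd]
          congr 1
          ring
        have e2 : √(M / F0) ^ (-(α * (N - 1) / 2)) * M = (M / F0) ^ b * F0 := by
          rw [Real.sqrt_eq_rpow, ← Real.rpow_mul (by positivity),
            show 1 / 2 * -(α * (N - 1) / 2) = b - 1 by rw [hbd]; ring,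
            Real.rpow_sub_one (by positivity)]
          field_simp
        have e3 : (F0 / M) ^ b * (M / F0) ^ b = 1 := by
          rw [← Real.mul_rpow (by positivity) (by positivity),
            show F0 / M * (M / F0) = 1 by field_simp, Real.one_rpow]
        rw [hms s hs0, e1, e2, hΘ1] at hPs
        refine (mul_le_mul_of_nonneg_left hPs hΛ0.le).trans (le_of_eq ?_)
        have e4 : Λ * (Ch * (δ * (F0 / M) ^ b / Λ) *
            ((M / F0) ^ b * kin (dv s) + (M / F0) ^ b * F0) + η) =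
            Ch * δ * ((F0 / M) ^ b * (M / F0) ^ b) * (kin (dv s) + F0) + Λ * η := by
          field_simp
        rw [e4, e3, mul_one]) hδ1 hη1
    have hst := MWC_step (m := 5 * F0) (s := s) hτpos.le
      (fun t ht => ((h4 N α κ v dv hsub hS).2 _ _ f1).2 t (by linarith [ht.1]))
      (fun t ht => (h5 N α κ v dv hsub hS _ _ _ f2).2 t (by linarith [ht.1]))
      (fun t ht => by
        have := hvc t s (abs_le.2 ⟨by linarith [ht.1], by linarith [ht.2]⟩)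
          (abs_le.2 ⟨by linarith, by linarith⟩)
          (abs_le.2 ⟨by linarith [ht.1], by linarith [ht.2]⟩) _ _
          (fun i j => ⟨f2.meas1 i j, f2.meas2 i j⟩)
          (fun i j x => ⟨(f3 i j x).1.trans (le_max_left _ _),
            (f3 i j x).2.trans (le_max_right _ _)⟩)
        linarith [(abs_le.1 this).1])
    have hrep : ∀ t, ∫ x, Ps k σ ψ x * ‖v t x‖ ^ 2 =
        σ ^ 2 * ∑ i, ∫ y, ψ i y * mg k σ i (fun x => ‖v t x‖ ^ 2) y := by
      intro t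
      have q := fun i => (m1 N i σ k _ hk.c0 hk.cs (integrable_ms (hS.h1 t).mem0)).2.2.2.2.2.1
        (ψ i) B (continuous_iff_continuousAt.2 fun y => (hψ i y).continuousAt)
        fun y => (hbd' i y).1
      simp only [fun i => (q i).2]
      rw [← integral_finsetSum _ fun i _ => (q i).1, ← integral_const_mul]
      refine integral_congr_ae (Eventually.of_forall fun x => ?_)
      simp only [Ps, mul_assoc, Finset.sum_mul]
    have hsub' : ∀ t, 0 ≤ t → a s + ((∫ x, Ps k σ ψ x * ‖v t x‖ ^ 2) -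
        ∫ x, Ps k σ ψ x * ‖v s x‖ ^ 2) ≤ a t := by
      intro t ht
      rw [hrep, hrep, ha, ← mul_sub, ← mul_add, ← Finset.sum_sub_distrib,
        ← Finset.sum_add_distrib]
      exact mul_le_mul_of_nonneg_left (Finset.sum_le_sum fun i _ => hsg i _ (hD t ht i))
        (sq_nonneg σ)
    have a1 := hsub' (s + τ) (by linarith)
    have a2 := hsub' (s - τ) (by linarith)
    linarith
  have hab : ∀ t, 0 ≤ t → 0 ≤ a t ∧ a t ≤ σ ^ 2 * (N * B1) := by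
    intro t ht
    rw [ha]
    refine ⟨mul_nonneg (sq_nonneg σ) (Finset.sum_nonneg fun i _ => (hU _ (hD t ht i)).1),
      mul_le_mul_of_nonneg_left ?_ (sq_nonneg σ)⟩
    refine (Finset.sum_le_sum fun i _ => (hU _ (hD t ht i)).2.1.trans hBB).trans ?_
    simp
  have hfin := o5.2 (fun j => a (t1 + j * τ)) (5 * F0 * τ ^ 2) n ?_
  · have b1 := (hab (t1 + ((2 * n : ℕ) : ℝ) * τ) (by positivity)).2
    have b2 := (hab (t1 + ((0 : ℕ) : ℝ) * τ) (by positivity)).2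
    have b3 := (hab (t1 + n * τ) (by positivity)).1
    have e : 5 * F0 * τ ^ 2 * (n : ℝ) ^ 2 = 5 / 4 * (F0 * T ^ 2) := by
      rw [show T = 2 * (n * τ) by linarith]; ring
    have e2 : 0 ≤ N * B1 * ((M ^ b / δ) ^ (4 / α) * (Λ / F0 ^ b) ^ (4 / α)) := by positivity
    rw [hσ2] at b1 b2
    rw [e] at hfin
    generalize (M ^ b / δ) ^ (4 / α) = y at b1 b2 e2 ⊢
    generalize (Λ / F0 ^ b) ^ (4 / α) = z at b1 b2 e2 ⊢
    generalize a (t1 + ((2 * n : ℕ) : ℝ) * τ) = x1 at b1 hfin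
    generalize a (t1 + ((0 : ℕ) : ℝ) * τ) = x2 at b2 hfin
    generalize a (t1 + n * τ) = x3 at b3 hfin
    clear * - b1 b2 b3 e2 hfin
    nlinarith
  · intro j hj
    have hj' : (j : ℝ) + 2 ≤ 2 * n := by exact_mod_cast hj
    have hj0 : (0 : ℝ) ≤ j := Nat.cast_nonneg j
    have := step (t1 + (j + 1) * τ) (by nlinarith) (by nlinarith)
    have e1 : t1 + ((j : ℝ) + 1) * τ + τ = t1 + ((j + 2 : ℕ) : ℝ) * τ := by push_cast; ring
    have e2 : t1 + ((j : ℝ) + 1) * τ - τ = t1 + (j : ℝ) * τ := by ring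
    have e3 : t1 + ((j : ℝ) + 1) * τ = t1 + ((j + 1 : ℕ) : ℝ) * τ := by push_cast; ring
    rw [e1, e2, e3] at this
    exact this

end Pool.Agent.Lib.MP_13801a_an.ND
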