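import Mathlib
import Pool.Agent.Lib.MP_13801a_an.ENV
import Pool.Agent.Lib.MP_13801a_an.EGRAD
import Pool.Agent.Lib.MP_13801a_an.DISP
import Pool.Agent.Lib.MP_13801a_an.ND.MW.Sts

/-!
The climbing estimate and the dispersive term for abstract densities on the line.
-/

open MeasureTheory Set Filter
open scoped Topology ENNReal

namespace Pool.Agent.Lib.MP_13801a_an.ND

theorem MWCLIMB : St_MWCLIMB := by
  intro ρ ρ1 q ε x s hd hc1 hcq r0 q0' hle hε hx hm
  have hcρ : Continuous ρ := continuous_iff_continuousAt.2 fun y => (hd y).continuousAt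
  obtain ⟨z0, hz0, hz⟩ := ENV_mm_le hcρ x s
  have hz1 : ε ≤ ρ z0 := hm.trans hz
  have hpos : ∀ y, 0 < ρ y + ε := fun y => by linarith [r0 y]
  set g : ℝ → ℝ := fun y => √(ρ y * q y) / (ρ y + ε) with hg
  have hcg : Continuous g :=
    (hcρ.mul hcq).sqrt.div (hcρ.add continuous_const) fun y => (hpos y).ne'
  have hg0 : ∀ y, 0 ≤ g y := fun y => div_nonneg (Real.sqrt_nonneg _) (hpos y).le
  set F' : ℝ → ℝ := fun y => ε ^ 2 * ρ1 y / (ρ y + ε) ^ 2 with hF'
  have hcF' : Continuous F' :=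
    (continuous_const.mul hc1).div
      ((hcρ.add continuous_const).pow 2) fun y => (pow_pos (hpos y) 2).ne'
  have hF : ∀ y, HasDerivAt (fun y => -(ε ^ 2 * (ρ y + ε)⁻¹)) (F' y) y := by
    intro y
    have h := ((((hd y).add_const ε).inv (hpos y).ne').const_mul (ε ^ 2)).neg
    refine h.congr_deriv ?_
    simp only [hF']
    ring
  have hFb : ∀ y, ‖F' y‖ ≤ 2 * ε * g y := by
    intro y
    have h0 : 0 ≤ ρ y * q y := mul_nonneg (r0 y) (q0' y)
    have h2 : 0 ≤ √(ρ y * q y) := Real.sqrt_nonneg _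
    have h1 : |ρ1 y| ≤ 2 * √(ρ y * q y) := by
      refine abs_le_of_sq_le_sq' ?_ (by positivity) |> abs_le.2
      rw [mul_pow, Real.sq_sqrt h0]
      linarith [hle y]
    have hp := hpos y
    simp only [hF', hg, Real.norm_eq_abs]
    rw [abs_div, abs_mul, abs_of_pos (pow_pos hε 2), abs_of_pos (pow_pos hp 2),
      div_le_iff₀ (pow_pos hp 2)]
    have e : 2 * ε * (√(ρ y * q y) / (ρ y + ε)) * (ρ y + ε) ^ 2 =
        2 * ε * √(ρ y * q y) * (ρ y + ε) := by
      field_simp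
    rw [e]
    have h3 : 0 ≤ ε * √(ρ y * q y) * ρ y := mul_nonneg (by positivity) (r0 y)
    have h4 := mul_le_mul_of_nonneg_left h1 (pow_pos hε 2).le
    nlinarith
  have hftc := intervalIntegral.integral_eq_sub_of_hasDerivAt (a := x) (b := z0)
    (fun y _ => hF y) (hcF'.intervalIntegrable _ _)
  have hsub : uIoc x z0 ⊆ uIoc x (x + s) :=
    uIoc_subset_uIoc_of_uIcc_subset_uIcc (uIcc_subset_uIcc left_mem_uIcc hz0)
  have hint : ∀ {h : ℝ → ℝ}, Continuous h → ∀ a b, IntegrableOn h (uIoc a b) := fun hh a b =>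
    intervalIntegrable_iff.1 (hh.intervalIntegrable a b)
  have hb1 : ∫ y in x..z0, F' y ≤ 2 * ε * ∫ y in uIoc x (x + s), g y := by
    calc ∫ y in x..z0, F' y ≤ ‖∫ y in x..z0, F' y‖ := Real.le_norm_self _
      _ ≤ ∫ y in uIoc x z0, ‖F' y‖ := intervalIntegral.norm_integral_le_integral_norm_uIoc
      _ ≤ ∫ y in uIoc x z0, 2 * ε * g y :=
        integral_mono (hint hcF'.norm _ _) (hint (continuous_const.mul hcg) _ _) hFb
      _ ≤ ∫ y in uIoc x (x + s), 2 * ε * g y :=
        setIntegral_mono_set (hint (continuous_const.mul hcg) _ _)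
          (Eventually.of_forall fun y => mul_nonneg (by positivity) (hg0 y)) hsub.eventuallyLE
      _ = _ := integral_const_mul _ _
  have hlow : (ε - ρ x) / 4 ≤ ∫ y in x..z0, F' y := by
    rw [hftc]
    have p1 : ε ^ 2 * (ρ z0 + ε)⁻¹ ≤ ε / 2 := by
      rw [← div_eq_mul_inv, div_le_iff₀ (hpos z0)]
      nlinarith
    have p2 : ε / 2 + (ε - ρ x) / 4 ≤ ε ^ 2 * (ρ x + ε)⁻¹ := by
      rw [← div_eq_mul_inv, le_div_iff₀ (hpos x)]
      nlinarith [sq_nonneg (ε - ρ x), r0 x]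
    linarith
  have hab : min x (x + s) ≤ max x (x + s) := min_le_max
  have hcs := ENV_cs hcg hab
  have hlen : max x (x + s) - min x (x + s) = |s| := by
    rw [max_sub_min_eq_abs']
    simp
  rw [hlen, intervalIntegral.integral_of_le hab, intervalIntegral.integral_of_le hab] at hcs
  have hg2 : (fun z => ρ z / (ρ z + ε) ^ 2 * q z) = fun z => g z ^ 2 := by
    funext z
    simp only [hg]
    rw [div_pow, Real.sq_sqrt (mul_nonneg (r0 z) (q0' z))]
    ring
  rw [hg2]
  change (∫ y in uIoc x (x + s), g y) ^ 2 ≤ |s| * ∫ y in uIoc x (x + s), g y ^ 2 at hcs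
  have q0 : 0 ≤ ε - ρ x := sub_nonneg.2 hx
  have q1 : ε - ρ x ≤ 8 * ε * ∫ y in uIoc x (x + s), g y := by linarith
  calc (ε - ρ x) ^ 2 ≤ (8 * ε * ∫ y in uIoc x (x + s), g y) ^ 2 :=
        pow_le_pow_left₀ q0 q1 2
    _ = 64 * ε ^ 2 * (∫ y in uIoc x (x + s), g y) ^ 2 := by ring
    _ ≤ 64 * ε ^ 2 * (|s| * ∫ y in uIoc x (x + s), g y ^ 2) :=
        mul_le_mul_of_nonneg_left hcs (by positivity)
    _ = _ := by ring

theorem MWDISP_egrad (h2 : St_EM) (h3 : St_ENV) (h4 : St_MWCLIMB) {M : ℝ}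
    {ρ ρ1 ρ2 q : ℝ → ℝ} (hP : Pr M ρ ρ1 ρ2 q) :
    (Integrable fun x => (em ρ x - ρ x) ^ 2 * deriv (em ρ) x ^ 2 / em ρ x ^ 3) ∧
      ∫ x, (em ρ x - ρ x) ^ 2 * deriv (em ρ) x ^ 2 / em ρ x ^ 3 ≤ 256 * ∫ y, q y := by
  have hD : Dens M ρ := hP.dens
  obtain ⟨⟨L, hL⟩, -, e1, -, -, -, -, e2⟩ := h2 _ ρ hD
  obtain ⟨v1, v2⟩ := h3 _ ρ hD
  have ce := hL.continuous
  have cρ := hD.lip.choose_spec.continuous
  have c1 : Continuous ρ1 := continuous_iff_continuousAt.2 fun x => (hP.d1 x).continuousAt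
  have cq : Continuous q := hP.cq
  have r0 := hD.nonneg
  set e := em ρ
  let A : Set ℝ := {x | DifferentiableAt ℝ e x} ∩ {x | ρ x < e x}
  let s : ℝ → ℝ := fun x => 2 * (e x - ρ x) / deriv e x
  have hA : MeasurableSet A := (measurableSet_of_differentiableAt ℝ e).inter
    (measurableSet_lt cρ.measurable ce.measurable)
  have ms' : Measurable fun p : ℝ × ℝ => p.1 + s p.1 := by
    have := measurable_deriv e
    have := ce.measurable
    have := cρ.measurable
    fun_prop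
  have uq : ∀ x ∈ A, ∀ t, t ≠ 0 → mm ρ x t = e x → t = s x := fun x hx t t0 ht => by
    have a := v1 x t hx.1 t0 ht
    refine (eq_div_iff fun b => ?_).2 a
    rw [b, mul_zero] at a
    linarith [show ρ x < e x from hx.2]
  have mx : ∀ x ∈ A, s x ≠ 0 ∧ mm ρ x (s x) = e x := fun x hx => by
    obtain ⟨t, t0, ht⟩ := e2 x hx.2
    exact uq x hx t t0 ht ▸ ⟨t0, ht⟩
  have no : ∀ x ∈ A, ∀ y, e y = e x → ¬ (x < y ∧ y < x + s x ∨ x + s x < y ∧ y < x) :=
    fun x hx y hy h => by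
      have := uq x hx _ (by rcases h with h | h <;> intro a <;> linarith [h.1, h.2])
        (v2 x y _ (mx x hx).2 hy h)
      rcases h with h | h <;> linarith [h.1, h.2]
  let S₁ : Set (ℝ × ℝ) := Prod.fst ⁻¹' A ∩ ({p | p.1 < p.2} ∩ {p | p.2 ≤ p.1 + s p.1})
  let S₂ : Set (ℝ × ℝ) := Prod.fst ⁻¹' A ∩ ({p | p.1 + s p.1 < p.2} ∩ {p | p.2 ≤ p.1})
  have m1 : MeasurableSet S₁ := (measurable_fst hA).inter
    ((measurableSet_lt measurable_fst measurable_snd).inter (measurableSet_le measurable_snd ms'))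
  have m2 : MeasurableSet S₂ := (measurable_fst hA).inter
    ((measurableSet_lt ms' measurable_snd).inter (measurableSet_le measurable_snd measurable_fst))
  have b1 := EGRAD_swap ce cρ cq r0 m1 (fun p hp => ⟨hp.1.1, (r0 _).trans_lt hp.1.2⟩)
    fun z x hx y hy h => le_antisymm
      (not_lt.1 fun a => no y hy.1 x h (Or.inl ⟨a, hx.2.1.trans_le hy.2.2⟩))
      (not_lt.1 fun a => no x hx.1 y h.symm (Or.inl ⟨a, hy.2.1.trans_le hx.2.2⟩))
  have b2 := EGRAD_swap ce cρ cq r0 m2 (fun p hp => ⟨hp.1.1, (r0 _).trans_lt hp.1.2⟩)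
    fun z x hx y hy h => le_antisymm
      (not_lt.1 fun a => no x hx.1 y h.symm (Or.inr ⟨hx.2.1.trans_le hy.2.2, a⟩))
      (not_lt.1 fun a => no y hy.1 x h (Or.inr ⟨hy.2.1.trans_le hx.2.2, a⟩))
  have mK := EGRAD_meas ce cρ cq
  set K := EGRAD_K e ρ q with hK
  have pt : ∀ x, ENNReal.ofReal ((e x - ρ x) ^ 2 * deriv e x ^ 2 / e x ^ 3) ≤
      128 * ((∫⁻ z, S₁.indicator K (x, z)) + ∫⁻ z, S₂.indicator K (x, z)) := fun x => by
    by_cases hx : x ∈ A
    swap
    · rcases not_and_or.1 hx with a | a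
      · simp [deriv_zero_of_not_differentiableAt a]
      · simp [le_antisymm (e1 x) (not_lt.1 a)]
    have p0 : 0 < e x := (r0 x).trans_lt hx.2
    have a1 := h4 ρ ρ1 q (e x) x (s x) hP.d0 c1 cq r0 hP.q0 hP.le p0 (e1 x) (mx x hx).2.ge
    have a3 : ∀ z, 0 ≤ ρ z / (ρ z + e x) ^ 2 := fun z => div_nonneg (r0 z) (sq_nonneg _)
    have a4 : Continuous fun z => ρ z / (ρ z + e x) ^ 2 * q z :=
      (cρ.div (by fun_prop) fun z => (pow_pos (by linarith [r0 z]) 2).ne').mul cq
    have a5 := ofReal_integral_eq_lintegral_ofReal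
      (a4.intervalIntegrable (μ := volume) x (x + s x)).def'
      (ae_of_all _ fun z => mul_nonneg (a3 z) (hP.q0 z))
    have a6 : 0 ≤ ∫ z in uIoc x (x + s x), ρ z / (ρ z + e x) ^ 2 * q z :=
      integral_nonneg fun z => mul_nonneg (a3 z) (hP.q0 z)
    have a7 : |s x| * |deriv e x| ≤ 2 * e x := by
      rw [← abs_mul, v1 x _ hx.1 (mx x hx).1 (mx x hx).2, abs_of_nonneg (by linarith [e1 x])]
      linarith [r0 x]
    set J := ∫ z in uIoc x (x + s x), ρ z / (ρ z + e x) ^ 2 * q z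
    have a8 : (e x - ρ x) ^ 2 * deriv e x ^ 2 / e x ^ 3 ≤ 128 * (|deriv e x| * J) := by
      rw [div_le_iff₀ (pow_pos p0 3), ← sq_abs (deriv e x)]
      nlinarith [mul_le_mul_of_nonneg_right a1 (sq_nonneg |deriv e x|),
        mul_le_mul_of_nonneg_right a7 (show 0 ≤ e x ^ 2 * (|deriv e x| * J) by positivity)]
    refine (ENNReal.ofReal_le_ofReal a8).trans ?_
    rw [ENNReal.ofReal_mul (by norm_num), ENNReal.ofReal_mul (abs_nonneg _), a5,
      ← lintegral_const_mul' _ _ ENNReal.ofReal_ne_top, ← lintegral_indicator measurableSet_uIoc,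
      ← lintegral_add_left (f := fun z => S₁.indicator K (x, z))
        ((mK.indicator m1).comp measurable_prodMk_left), ENNReal.ofReal_ofNat]
    refine mul_le_mul_right (lintegral_mono fun z => ?_) _
    refine indicator_apply_le' (fun hz => ?_) fun _ => zero_le
    rw [ENNReal.ofReal_mul (a3 z), ← mul_assoc]
    rcases mem_uIoc.1 hz with a | a
    · exact (indicator_of_mem (show (x, z) ∈ S₁ from ⟨hx, a⟩) K).ge.trans le_self_add
    · exact (indicator_of_mem (show (x, z) ∈ S₂ from ⟨hx, a⟩) K).ge.trans le_add_self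
  have tot := lintegral_mono (μ := volume) pt
  rw [lintegral_const_mul' _ _ (by norm_num),
    lintegral_add_left (mK.indicator m1).lintegral_prod_right'] at tot
  replace tot := tot.trans (mul_le_mul_right (add_le_add b1 b2) _)
  rw [← ofReal_integral_eq_lintegral_ofReal hP.iq (ae_of_all _ fun z => hP.q0 z),
    ← two_mul, ← mul_assoc, show (128 * 2 : ℝ≥0∞) = ENNReal.ofReal 256 by norm_num,
    ← ENNReal.ofReal_mul (by norm_num)] at tot
  have n0 : 0 ≤ᵐ[volume] fun x => (e x - ρ x) ^ 2 * deriv e x ^ 2 / e x ^ 3 :=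
    ae_of_all _ fun x => div_nonneg (by positivity) (pow_nonneg ((r0 x).trans (e1 x)) 3)
  have n1 : Measurable fun x => (e x - ρ x) ^ 2 * deriv e x ^ 2 / e x ^ 3 := by
    have := measurable_deriv e
    have := ce.measurable
    have := cρ.measurable
    fun_prop
  refine ⟨(lintegral_ofReal_ne_top_iff_integrable n1.aestronglyMeasurable n0).1
    (ne_top_of_le_ne_top ENNReal.ofReal_ne_top tot), ?_⟩
  rw [integral_eq_lintegral_of_nonneg_ae n0 n1.aestronglyMeasurable]
  exact ENNReal.toReal_le_of_le_ofReal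
    (mul_nonneg (by norm_num) (integral_nonneg hP.q0)) tot

theorem MWDISP (h1 : St_EM) (h2 : St_ENV) (h3 : St_HH) (h4 : St_MWCLIMB) : St_MWDISP := by
  intro ε1 ε2 S M w w' ρ ρ1 ρ2 q hw hP
  have hD : Dens M ρ := hP.dens
  obtain ⟨⟨Le, hLe⟩, -, hρe, -, hhole, -⟩ := h1 _ ρ hD
  obtain ⟨⟨L, hL⟩, -, -, hz, -, hder⟩ := h3 ε1 ε2 S _ w w' ρ hw hD
  obtain ⟨hI, hIle⟩ := MWDISP_egrad h1 h2 h4 hP
  obtain ⟨R0, hR0⟩ := (hhole ε1 hw.pos).bdd
  set R := max R0 0 with hR
  have hR1 : 0 ≤ R := le_max_right _ _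
  have hzero : ∀ x, R ≤ |x| → hh w ρ x = 0 := fun x hx =>
    hz x (hR0 x ((le_max_left _ _).trans hx))
  have hGd' : deriv ρ1 = ρ2 := funext fun x => (hP.d1 x).deriv
  have hGc : ContDiff ℝ 1 ρ1 := by
    refine contDiff_one_iff_deriv.2 ⟨fun x => (hP.d1 x).differentiableAt, ?_⟩
    rw [hGd']
    exact hP.c2
  have hibp := (hL.lipschitzOnWith.absolutelyContinuousOnInterval (a := -R) (b := R)
    ).integral_mul_deriv_eq_deriv_mul hGc.contDiffOn.absolutelyContinuousOnInterval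
  rw [hGd', hzero R (le_abs_self R), hzero (-R) (by rw [abs_neg]; exact le_abs_self R),
    intervalIntegral.integral_eq_integral_of_support_subset (fun x hx => by
      by_contra h
      refine hx ?_
      show hh w ρ x * ρ2 x = 0
      rw [hzero x, zero_mul]
      by_contra h'
      have h'' := abs_lt.1 (not_le.1 h')
      exact h ⟨h''.1, h''.2.le⟩)] at hibp
  rw [hibp, zero_mul, zero_mul, sub_zero, zero_sub, abs_neg,
    intervalIntegral.integral_of_le (by linarith)]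
  have i1 := hP.iq
  have hB : Integrable fun x => 3 * ((em ρ x - ρ x) ^ 2 * deriv (em ρ) x ^ 2 / em ρ x ^ 3) +
      12 * q x := (hI.const_mul 3).add (i1.const_mul 12)
  have he0 : ∀ x, 0 ≤ em ρ x := fun x => (hD.nonneg x).trans (hρe x)
  have hpt : ∀ᵐ x, ‖deriv (hh w ρ) x * ρ1 x‖ ≤
      3 * ((em ρ x - ρ x) ^ 2 * deriv (em ρ) x ^ 2 / em ρ x ^ 3) + 12 * q x := by
    filter_upwards [hLe.ae_differentiableAt] with x hx
    rw [(hder x _ _ hx.hasDerivAt (hP.d0 x)).deriv, Real.norm_eq_abs]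
    have hq := hP.q0 x
    by_cases h : em ρ x ≤ ε1
    · obtain ⟨h5, h6⟩ := hw.zero _ (Or.inl h)
      rw [h5, h6]
      have := he0 x
      simp only [zero_mul, sub_zero, abs_zero]
      positivity
    · have h5 : ε1 < em ρ x := not_le.1 h
      have h6 : ρ x * q x ≤ em ρ x * q x := mul_le_mul_of_nonneg_right (hρe x) hq
      have h7 : 0 ≤ em ρ x * q x := mul_nonneg (he0 x) hq
      have h8 := hP.le x
      rw [mul_assoc (w' _), ← mul_pow]
      refine (DISP_pt (b := q x) (d := q x) (hw.pos.trans h5) (hw.nonneg _) (hw.le _) (hw.le' _)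
        (by linarith) (by linarith)).trans (le_of_eq ?_)
      ring
  have h8 := norm_integral_le_of_norm_le (hB.integrableOn (s := Ioc (-R) R))
    (ae_restrict_of_ae hpt)
  have h9 := setIntegral_le_integral (s := Ioc (-R) R) hB
    (Eventually.of_forall fun x => by
      have := he0 x
      have := hP.q0 x
      simp only [Pi.zero_apply]
      positivity)
  rw [integral_add (hI.const_mul 3) (i1.const_mul 12), integral_const_mul,
    integral_const_mul] at h9
  have h10 : 0 ≤ ∫ y, q y := integral_nonneg hP.q0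
  rw [Real.norm_eq_abs] at h8
  linarith

end Pool.Agent.Lib.MP_13801a_an.ND
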