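import Mathlib
import Pool.Agent.Lib.MP_13801a_an.ND.MW.Sts
import Pool.Agent.Lib.MP_13801a_an.ND.SOB

/-!
The inequality of Hedberg type for one dimensional concentration, in all dimensions.
-/

open MeasureTheory Set Filter
open scoped ContDiff Topology ComplexConjugate

namespace Pool.Agent.Lib.MP_13801a_an.ND

theorem MWHED_pow {r R β b : ℝ} (hr : 0 < r) (hR : 0 < R) (hβ : 0 ≤ β) (hb : β ≤ b) :
    r ^ (-β) ≤ R ^ (-β) * max 1 ((R / r) ^ b) := by
  have e : r ^ (-β) = R ^ (-β) * (R / r) ^ β := by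
    rw [Real.div_rpow hR.le hr.le, Real.rpow_neg hR.le, Real.rpow_neg hr.le]
    have : R ^ β ≠ 0 := by positivity
    field_simp
  rw [e]
  refine mul_le_mul_of_nonneg_left ?_ (by positivity)
  rcases le_total 1 (R / r) with h | h
  · exact (Real.rpow_le_rpow_of_exponent_le h hb).trans (le_max_right _ _)
  · exact (Real.rpow_le_one (by positivity) h hβ).trans (le_max_left _ _)

theorem MWHED (h1 : St_LEV) (h2 : St_GK) : St_MWHED := by
  intro N α hα hN hαq
  refine ⟨(8 * N + 1) * 4 ^ α, by positivity, fun p Θ R B η hp hΘ hR hη => ?_⟩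
  have hp0 : 0 < p := by linarith
  have hN' : (1 : ℝ) ≤ N := by exact_mod_cast hN
  set β : ℝ := (N - 1) / 2 with hβ
  have hβ0 : 0 ≤ β := by rw [hβ]; linarith
  have hβ1 : β ≤ 2 / α := by
    rw [le_div_iff₀ hα, hβ]
    linarith
  have hγ : 0 < p - (α + 2) := by linarith
  have hγ' : 0 < 2 / α * (p - (α + 2)) := by positivity
  obtain ⟨n, hn⟩ : ∃ n : ℕ, (4 * √Θ * R ^ (-β)) ^ (-(p - (α + 2))) *
      (√(2 * (2 ^ 0 * (R ^ 2 / 2 ^ (n + 1)))) / R) ^ (2 / α * (p - (α + 2))) * |B| ^ p ≤ η := by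
    have t1 : Tendsto (fun n : ℕ => R ^ 2 / (2 : ℝ) ^ (n + 1)) atTop (𝓝 0) :=
      tendsto_const_nhds.div_atTop ((tendsto_pow_atTop_atTop_of_one_lt one_lt_two).comp
        (tendsto_add_atTop_nat 1))
    have hc : Continuous fun s : ℝ => (4 * √Θ * R ^ (-β)) ^ (-(p - (α + 2))) *
        (√(2 * (2 ^ 0 * s)) / R) ^ (2 / α * (p - (α + 2))) * |B| ^ p :=
      (continuous_const.mul ((Real.continuous_rpow_const hγ'.le).comp
        (by fun_prop))).mul continuous_const
    have t2 := (hc.tendsto 0).comp t1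
    rw [mul_zero, mul_zero, Real.sqrt_zero, zero_div, Real.zero_rpow hγ'.ne', mul_zero,
      zero_mul] at t2
    exact (t2.eventually_le_const hη).exists
  set s0 : ℝ := R ^ 2 / 2 ^ (n + 1) with hs0
  have hs00 : 0 < s0 := by positivity
  let r : ℕ → ℝ := fun k => √(2 * (2 ^ k * s0))
  have hr0 : ∀ k, 0 < r k := fun k => by positivity
  have hrm : ∀ k l, k ≤ l → r k ≤ r l := fun k l hkl => Real.sqrt_le_sqrt (by
    have : (2 : ℝ) ^ k ≤ 2 ^ l := pow_le_pow_right₀ one_le_two hkl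
    nlinarith)
  have hrn : r n = R := by
    have e : 2 * (2 ^ n * s0) = R ^ 2 := by rw [hs0]; field_simp; ring
    simp only [r, e]
    exact Real.sqrt_sq hR.le
  have hm : ∀ k, k ≤ n → max 1 ((R / r k) ^ (2 / α)) = (R / r k) ^ (2 / α) := fun k hk' =>
    max_eq_right (Real.one_le_rpow ((one_le_div (hr0 k)).2 ((hrm k n hk').trans hrn.le))
      (by positivity))
  let h : ℕ → ℝ := fun k => 4 * (√Θ * (R ^ (-β) * max 1 ((R / r k) ^ (2 / α))))
  have hh0 : ∀ k, 0 < h k := fun k => by positivity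
  have hha : ∀ k, k ≤ n →
      h k ^ α = 4 ^ α * Θ ^ (α / 2) * R ^ (-(α * (N - 1) / 2)) * (R / r k) ^ 2 := by
    intro k hk'
    have := hr0 k
    simp only [h]
    rw [hm k hk', Real.mul_rpow (by positivity) (by positivity),
      Real.mul_rpow (by positivity) (by positivity), Real.mul_rpow (by positivity) (by positivity),
      ← Real.rpow_mul hR.le, ← Real.rpow_mul (by positivity), div_mul_cancel₀ _ hα.ne',
      Real.rpow_two, Real.sqrt_eq_rpow, ← Real.rpow_mul hΘ.le]
    have e1 : 1 / 2 * α = α / 2 := by ring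
    have e2 : -β * α = -(α * (N - 1) / 2) := by rw [hβ]; ring
    rw [e1, e2]
    ring
  refine ⟨r 0, hr0 0, fun g K hK hg hg1 hg2 hB => ?_⟩
  have hA : MeasurableSet (Sp 1 Θ (r 0) fun x => ‖g x‖ ^ 2) :=
    (SOB_closed _ _ _ (integrable_ms hg.1)).measurableSet
  refine ⟨hA, ?_⟩
  have key := h1 N g K s0 α (4 ^ α * Θ ^ (α / 2) * R ^ (2 - α * (N - 1) / 2)) n h _ hg hs00 hα.le
    (by positivity) hK hA (fun k => (hh0 k).le)
    (fun k x hx => (SOB_sp h2 hΘ (by positivity) (hrm 0 k (Nat.zero_le k)) hg.1 hx).trans (by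
      have h3 := mul_le_mul_of_nonneg_left (MWHED_pow (hr0 k) hR hβ0 hβ1) (Real.sqrt_nonneg Θ)
      simp only [h]
      linarith)) (fun k hk' => by
      have e1 : 2 ^ (k + 1) * s0 = r k ^ 2 := by
        rw [Real.sq_sqrt (by positivity)]
        ring
      have := hr0 k
      rw [hha k hk'.le, e1, sub_eq_neg_add 2, Real.rpow_add hR, Real.rpow_two]
      exact le_of_eq (by field_simp))
  rw [hha n le_rfl, hrn, div_self hR.ne', one_pow, mul_one] at key
  generalize (Sp 1 Θ (r 0) fun x => ‖g x‖ ^ 2) = A at hA key ⊢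
  have hi1 := Mem.integrable_rpow (by linarith) hg1
  have hi2 := (Mem.integrable_rpow hp0 hg2).const_mul (h 0 ^ (-(p - (α + 2))))
  have hc0 : 0 ≤ h 0 ^ (-(p - (α + 2))) := by have := hh0 0; positivity
  have htail : ∫⁻ x in A, ENNReal.ofReal (h 0 ^ (-(p - (α + 2))) * ‖g x‖ ^ p) ≤
      ENNReal.ofReal η := by
    refine (lintegral_mono' Measure.restrict_le_self le_rfl).trans ?_
    rw [← ofReal_integral_eq_lintegral_ofReal hi2 (Eventually.of_forall fun x => by positivity),
      integral_const_mul, ← nr_rpow hp0 hg.1.1]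
    refine ENNReal.ofReal_le_ofReal (le_trans ?_ hn)
    have e1 : h 0 ^ (-(p - (α + 2))) =
        (4 * √Θ * R ^ (-β)) ^ (-(p - (α + 2))) * (r 0 / R) ^ (2 / α * (p - (α + 2))) := by
      have := hr0 0
      have e2 : (r 0 / R) ^ (2 / α * (p - (α + 2))) =
          ((R / r 0) ^ (2 / α)) ^ (-(p - (α + 2))) := by
        rw [← Real.rpow_mul (by positivity), mul_neg, Real.rpow_neg (by positivity),
          ← Real.inv_rpow (by positivity), inv_div]
      rw [e2, ← Real.mul_rpow (by positivity) (by positivity)]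
      simp only [h]
      rw [hm 0 (Nat.zero_le n)]
      congr 1
      ring
    rw [← e1]
    exact mul_le_mul_of_nonneg_left (Real.rpow_le_rpow (nr_nonneg _ _)
      (hB.trans (le_abs_self B)) hp0.le) hc0
  have hsum : ∫⁻ x in A, ENNReal.ofReal (‖g x‖ ^ (α + 2)) ≤
      (∫⁻ x in A, ENNReal.ofReal (if ‖g x‖ < h 0 then ‖g x‖ ^ (α + 2) else 0)) +
        ∫⁻ x in A, ENNReal.ofReal (h 0 ^ (-(p - (α + 2))) * ‖g x‖ ^ p) := by
    rw [← lintegral_add_right' _ (hi2.1.aemeasurable.ennreal_ofReal.restrict)]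
    refine lintegral_mono fun x => ?_
    split_ifs with h4
    · exact le_self_add
    · rw [ENNReal.ofReal_zero, zero_add]
      refine ENNReal.ofReal_le_ofReal ?_
      have h5 : h 0 ≤ ‖g x‖ := not_lt.1 h4
      have h6 : 0 < ‖g x‖ := (hh0 0).trans_le h5
      have e : ‖g x‖ ^ (α + 2) = ‖g x‖ ^ (-(p - (α + 2))) * ‖g x‖ ^ p := by
        rw [← Real.rpow_add h6]
        congr 1
        ring
      rw [e]
      exact mul_le_mul_of_nonneg_right (Real.rpow_le_rpow_of_nonpos (hh0 0) h5 (by linarith))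
        (by positivity)
  have hms := ms_nonneg g
  have hfin := hsum.trans (add_le_add key htail)
  rw [← ofReal_integral_eq_lintegral_ofReal hi1.integrableOn
    (Eventually.of_forall fun x => by positivity), ← ENNReal.ofReal_add (by positivity) hη.le,
    ENNReal.ofReal_le_ofReal_iff (by positivity)] at hfin
  refine hfin.trans (add_le_add_left ?_ η)
  have e1 : 0 ≤ 4 ^ α * Θ ^ (α / 2) * R ^ (2 - α * (N - 1) / 2) * K := by positivity
  have e2 : 0 ≤ 8 * N * (4 ^ α * Θ ^ (α / 2) * R ^ (-(α * (N - 1) / 2)) * ms g) := by positivity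
  nlinarith

end Pool.Agent.Lib.MP_13801a_an.ND
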