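import Mathlib
import Pool.Agent.Lib.MP_13801a_an.ND.MW.Sts

/-!
Lower bound of the maximal function of a marginal at points where the local mass is large.
-/

open MeasureTheory Set Filter
open scoped Topology

namespace Pool.Agent.Lib.MP_13801a_an.ND

theorem MWHIGH_fin {f T T1 : ℝ → ℝ} {e M l : ℝ} (hl : 0 < l) (he : 0 ≤ e) (hf : Continuous f)
    (hT : ∀ u, HasDerivAt T (T1 u) u) (hT1 : ∀ u, HasDerivAt T1 (f u - e) u) (h0 : T 0 = 0)
    (h10 : T1 0 = 0) (hneg : ∀ u, T u ≤ 0) (hM : ∀ u, 0 ≤ u → T1 u ≤ M) {L : ℝ} (hL : 0 ≤ L) :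
    ∫ u in (0 : ℝ)..L, Real.exp (-(u / l)) * f u ≤ e * l + M * Real.exp (-(L / l)) := by
  have hφ : ∀ u, HasDerivAt (fun u => Real.exp (-(u / l))) (Real.exp (-(u / l)) * (-(1 / l))) u :=
    fun u => ((hasDerivAt_id u).div_const l).fun_neg.exp
  have hTc : Continuous T := continuous_iff_continuousAt.2 fun u => (hT u).continuousAt
  have hH : ∀ u, HasDerivAt (fun u => Real.exp (-(u / l)) * (T1 u + T u / l - e * l))
      (Real.exp (-(u / l)) * (f u - T u / l ^ 2)) u := by
    intro u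
    have := (hφ u).fun_mul (((hT1 u).fun_add ((hT u).div_const l)).sub_const (e * l))
    refine this.congr_deriv ?_
    have hl' := hl.ne'
    field_simp
    ring
  have hc : Continuous fun u => Real.exp (-(u / l)) * (f u - T u / l ^ 2) := by fun_prop
  have hc' : Continuous fun u => Real.exp (-(u / l)) * f u := by fun_prop
  have h1 := intervalIntegral.integral_eq_sub_of_hasDerivAt (a := 0) (b := L)
    (fun u _ => hH u) (hc.intervalIntegrable _ _)
  have h2 : ∫ u in (0 : ℝ)..L, Real.exp (-(u / l)) * f u ≤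
      ∫ u in (0 : ℝ)..L, Real.exp (-(u / l)) * (f u - T u / l ^ 2) := by
    refine intervalIntegral.integral_mono_on hL (hc'.intervalIntegrable _ _)
      (hc.intervalIntegrable _ _) fun u _ => ?_
    have := div_nonpos_of_nonpos_of_nonneg (hneg u) (sq_nonneg l)
    exact mul_le_mul_of_nonneg_left (by linarith) (Real.exp_pos _).le
  rw [h1, h0, h10] at h2
  have h3 := div_nonpos_of_nonpos_of_nonneg (hneg L) hl.le
  have h4 := hM L hL
  have h5 := mul_nonneg he hl.le
  have h6 : Real.exp (-(L / l)) * (T1 L + T L / l - e * l) ≤ Real.exp (-(L / l)) * M :=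
    mul_le_mul_of_nonneg_left (by linarith) (Real.exp_pos _).le
  simp only [zero_div, neg_zero, Real.exp_zero, add_zero] at h2
  linarith

theorem MWHIGH_half {f T T1 : ℝ → ℝ} {e M l : ℝ} (hl : 0 < l) (he : 0 ≤ e) (hf : Continuous f)
    (hi : IntegrableOn (fun u => Real.exp (-(u / l)) * f u) (Ioi 0))
    (hT : ∀ u, HasDerivAt T (T1 u) u) (hT1 : ∀ u, HasDerivAt T1 (f u - e) u) (h0 : T 0 = 0)
    (h10 : T1 0 = 0) (hneg : ∀ u, T u ≤ 0) (hM : ∀ u, 0 ≤ u → T1 u ≤ M) :
    ∫ u in Ioi (0 : ℝ), Real.exp (-(u / l)) * f u ≤ e * l := by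
  have h1 := intervalIntegral_tendsto_integral_Ioi 0 hi tendsto_id
  have h2 : Tendsto (fun L : ℝ => e * l + M * Real.exp (-(L / l))) atTop (𝓝 (e * l + M * 0)) :=
    tendsto_const_nhds.add (tendsto_const_nhds.mul
      (Real.tendsto_exp_neg_atTop_nhds_zero.comp (tendsto_id.atTop_div_const hl)))
  rw [mul_zero, add_zero] at h2
  refine le_of_tendsto_of_tendsto h1 h2 ?_
  filter_upwards [eventually_ge_atTop (0 : ℝ)] with L hL
  exact MWHIGH_fin hl he hf hT hT1 h0 h10 hneg hM hL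

theorem MWHIGH_mass {M : ℝ} {ρ : ℝ → ℝ} (hD : Dens M ρ) {e a b : ℝ} (he : 0 ≤ e) (hab : a ≤ b) :
    ∫ z in a..b, (ρ z - e) ≤ M := by
  rw [intervalIntegral.integral_sub hD.int.intervalIntegrable (by simp),
    intervalIntegral.integral_const, intervalIntegral.integral_of_le hab]
  have h1 : ∫ z in Ioc a b, ρ z ≤ ∫ z, ρ z :=
    setIntegral_le_integral hD.int (Eventually.of_forall hD.nonneg)
  have h2 := mul_nonneg (sub_nonneg.2 hab) he
  have h3 := hD.mass
  simp only [smul_eq_mul]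
  linarith

theorem MWEXP (h1 : St_EM) (h2 : St_TT) : St_MWEXP := by
  intro M ρ hD y l hl
  obtain ⟨-, -, hle, -, -, -, hiff, -⟩ := h1 M ρ hD
  obtain ⟨L, hL⟩ := hD.lip
  have hc : Continuous ρ := hL.continuous
  set e := em ρ y with he
  have he0 : 0 ≤ e := (hD.nonneg y).trans (hle y)
  have hneg : ∀ z, TT ρ e y z ≤ 0 := (hiff e y).1 le_rfl
  obtain ⟨hd, hz, -⟩ := h2 ρ e hc
  have hp : ∀ z, HasDerivAt (fun z => ∫ t in y..z, (ρ t - e)) (ρ z - e) z := fun z =>
    ((hc.sub continuous_const).integral_hasStrictDerivAt y z).hasDerivAt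
  have hb : ∀ u : ℝ, ‖Real.exp (-(|u| / l))‖ ≤ 1 := fun u => by
    rw [Real.norm_eq_abs, abs_of_pos (Real.exp_pos _), Real.exp_le_one_iff]
    exact neg_nonpos.2 (div_nonneg (abs_nonneg u) hl.le)
  have hI : Integrable fun u => Real.exp (-(|u| / l)) * ρ (y + u) :=
    (hD.int.comp_add_left y).bdd_mul (by fun_prop) (Eventually.of_forall hb)
  have hI' : Integrable fun u => Real.exp (-(|u| / l)) * ρ (y - u) :=
    (hD.int.comp_sub_left y).bdd_mul (by fun_prop) (Eventually.of_forall hb)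
  have hR : ∫ u in Ioi (0 : ℝ), Real.exp (-(|u| / l)) * ρ (y + u) ≤ e * l := by
    have hE : EqOn (fun u => Real.exp (-(|u| / l)) * ρ (y + u))
        (fun u => Real.exp (-(u / l)) * ρ (y + u)) (Ioi 0) := fun u hu => by
      simp only [abs_of_pos (mem_Ioi.1 hu)]
    rw [setIntegral_congr_fun measurableSet_Ioi hE]
    refine MWHIGH_half (T := fun u => TT ρ e y (y + u))
      (T1 := fun u => ∫ t in y..(y + u), (ρ t - e)) (M := M) hl he0 (by fun_prop)
      (hI.integrableOn.congr_fun hE measurableSet_Ioi) (fun u => ?_) (fun u => ?_)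
      (by simp [hz]) (by simp) (fun u => hneg _) fun u hu => MWHIGH_mass hD he0 (by linarith)
    · exact (hd y (y + u)).comp_const_add y u
    · exact (hp (y + u)).comp_const_add y u
  have hLf : ∫ u in Ioi (0 : ℝ), Real.exp (-(|u| / l)) * ρ (y - u) ≤ e * l := by
    have hE : EqOn (fun u => Real.exp (-(|u| / l)) * ρ (y - u))
        (fun u => Real.exp (-(u / l)) * ρ (y - u)) (Ioi 0) := fun u hu => by
      simp only [abs_of_pos (mem_Ioi.1 hu)]
    rw [setIntegral_congr_fun measurableSet_Ioi hE]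
    refine MWHIGH_half (T := fun u => TT ρ e y (y - u))
      (T1 := fun u => -∫ t in y..(y - u), (ρ t - e)) (M := M) hl he0 (by fun_prop)
      (hI'.integrableOn.congr_fun hE measurableSet_Ioi) (fun u => ?_) (fun u => ?_)
      (by simp [hz]) (by simp) (fun u => hneg _) fun u hu => ?_
    · exact (hd y (y - u)).comp_const_sub y u
    · have := ((hp (y - u)).comp_const_sub y u).fun_neg
      rwa [neg_neg] at this
    · rw [← intervalIntegral.integral_symm]
      exact MWHIGH_mass hD he0 (by linarith)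
  have e1 : ∫ z, Real.exp (-(|z - y| / l)) * ρ z =
      ∫ u, Real.exp (-(|u| / l)) * ρ (y + u) := by
    rw [← integral_add_left_eq_self (fun z => Real.exp (-(|z - y| / l)) * ρ z) y]
    simp only [add_sub_cancel_left]
  have e2 : ∫ u in Iic (0 : ℝ), Real.exp (-(|u| / l)) * ρ (y + u) =
      ∫ u in Ioi (0 : ℝ), Real.exp (-(|u| / l)) * ρ (y - u) := by
    have := integral_comp_neg_Ioi (0 : ℝ) (fun u => Real.exp (-(|u| / l)) * ρ (y + u))
    rw [neg_zero] at this
    rw [← this]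
    simp only [abs_neg, sub_eq_add_neg]
  rw [e1, ← intervalIntegral.integral_Iic_add_Ioi (b := 0) hI.integrableOn hI.integrableOn, e2]
  linarith

theorem MWHIGH_gs {N : ℕ} (i : Fin N) {r : ℝ} (hr : 0 < r) (v : E N) :
    gs r v ≤ Real.exp (1 / 2 - |v i| / r) := by
  unfold gs
  rw [Real.exp_le_exp]
  have h1 : |v i| ≤ ‖v‖ := by
    have := PiLp.norm_apply_le v i
    rwa [Real.norm_eq_abs] at this
  have h2 : |v i| ^ 2 ≤ ‖v‖ ^ 2 := pow_le_pow_left₀ (abs_nonneg _) h1 2
  have h3 : -‖v‖ ^ 2 / (2 * r ^ 2) ≤ -|v i| ^ 2 / (2 * r ^ 2) :=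
    div_le_div_of_nonneg_right (by linarith) (by positivity)
  have h4 : -|v i| ^ 2 / (2 * r ^ 2) = 1 / 2 - |v i| / r - (|v i| / r - 1) ^ 2 / 2 := by
    field_simp
    ring
  have h5 := sq_nonneg (|v i| / r - 1)
  linarith

theorem MWHIGH_av {r c a : ℝ} {k k1 ψ : ℝ → ℝ} (hk : Kr r k k1) (hψ : Continuous ψ)
    (h : ∀ u, |u| < r → c ≤ ψ (a + u)) : c ≤ avm k ψ a := by
  have hi : Integrable k := hk.c0.integrable_of_hasCompactSupport hk.cs
  have hi' : Integrable fun u => ψ (a + u) * k u :=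
    ((hψ.comp (continuous_const.add continuous_id)).mul hk.c0).integrable_of_hasCompactSupport
      hk.cs.mul_left
  have h1 : ∫ u, c * k u ≤ avm k ψ a := by
    refine integral_mono (hi.const_mul c) hi' fun u => ?_
    by_cases hu : |u| < r
    · exact mul_le_mul_of_nonneg_right (h u hu) (hk.nonneg u)
    · simp only [hk.supp u (not_lt.1 hu), mul_zero, le_refl]
  rwa [integral_const_mul, hk.one, mul_one] at h1

theorem MWHIGH (h1 : St_MWMG) (h2 : St_MWEXP) : St_MWHIGH := by
  intro N i σ r r0 Θ M k k1 ρ hσ hr0 hΘ hr hk hρ hρ0 hD x hx y hy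
  simp only [Sp, mem_setOf_eq, not_forall, not_le, Real.rpow_one] at hx
  obtain ⟨s, hs, hlt⟩ := hx
  have hs0 : 0 < s := hr0.trans_le hs
  have hl : 0 < s / σ := div_pos hs0 hσ
  set ψ : ℝ → ℝ := fun w => Real.exp (-(|w - y| / (s / σ))) with hψ
  have hψc : Continuous ψ := by rw [hψ]; fun_prop
  have hψb : ∀ w, |ψ w| ≤ 1 := fun w => by
    rw [hψ, abs_of_pos (Real.exp_pos _), Real.exp_le_one_iff]
    exact neg_nonpos.2 (div_nonneg (abs_nonneg _) hl.le)
  obtain ⟨-, -, -, -, -, hF, -⟩ := h1 N i σ k ρ hk.c0 hk.cs hρ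
  obtain ⟨hFi, hFe⟩ := hF ψ 1 hψc hψb
  have hE := h2 M _ hD y (s / σ) hl
  have hpt : ∀ z : E N, gs s (x - z) ≤ Real.exp 1 * avm k ψ (z i / σ) := by
    intro z
    have ha : Real.exp (-(1 / 2) - |x i - z i| / s) ≤ avm k ψ (z i / σ) := by
      refine MWHIGH_av hk hψc fun u hu => ?_
      rw [hψ, Real.exp_le_exp]
      have b1 : |z i / σ + u - y| ≤ |x i - z i| / σ + 2 * r := by
        have c1 : z i / σ + u - y = -((x i - z i) / σ) + u - (y - x i / σ) := by ring
        have c2 := abs_sub (-((x i - z i) / σ) + u) (y - x i / σ)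
        have c3 := abs_add_le (-((x i - z i) / σ)) u
        rw [abs_neg, abs_div, abs_of_pos hσ] at c3
        rw [c1]
        linarith
      have b2 : |z i / σ + u - y| / (s / σ) ≤ (|x i - z i| / σ + 2 * r) / (s / σ) :=
        div_le_div_of_nonneg_right b1 hl.le
      have b3 : (|x i - z i| / σ + 2 * r) / (s / σ) = |x i - z i| / s + 2 * r * σ / s := by
        field_simp
      have b4 : 2 * r * σ / s ≤ 1 / 2 := by
        rw [div_le_iff₀ hs0]
        linarith
      linarith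
    have hb := MWHIGH_gs i hs0 (x - z)
    have hc : Real.exp (1 / 2 - |(x - z) i| / s) =
        Real.exp 1 * Real.exp (-(1 / 2) - |x i - z i| / s) := by
      rw [← Real.exp_add, PiLp.sub_apply]
      congr 1
      ring
    rw [hc] at hb
    exact hb.trans (mul_le_mul_of_nonneg_left ha (Real.exp_pos 1).le)
  have hint : ∫ z, gs s (x - z) * ρ z ≤ ∫ z : E N, Real.exp 1 * (avm k ψ (z i / σ) * ρ z) := by
    refine integral_mono_of_nonneg (Eventually.of_forall fun z => ?_) (hFi.const_mul _)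
      (Eventually.of_forall fun z => ?_)
    · exact mul_nonneg (Real.exp_pos _).le (hρ0 z)
    · have := mul_le_mul_of_nonneg_right (hpt z) (hρ0 z)
      simpa only [mul_assoc] using this
  rw [integral_const_mul, ← hFe] at hint
  have h3 : Real.exp 1 < 3 := Real.exp_one_lt_d9.trans (by norm_num)
  have h4 : Θ * s < Real.exp 1 * (2 * (s / σ) * em (mg k σ i ρ) y) :=
    hlt.trans_le (hint.trans (mul_le_mul_of_nonneg_left hE (Real.exp_pos 1).le))
  have h5 : 0 < 2 * (s / σ) * em (mg k σ i ρ) y :=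
    pos_of_mul_pos_right ((mul_pos hΘ hs0).trans h4) (Real.exp_pos 1).le
  have h6 : Θ * s < 3 * (2 * (s / σ) * em (mg k σ i ρ) y) :=
    h4.trans (mul_lt_mul_of_pos_right h3 h5)
  have h7 : 3 * (2 * (s / σ) * em (mg k σ i ρ) y) = 6 * em (mg k σ i ρ) y / σ * s := by
    field_simp
    ring
  rw [h7] at h6
  have h8 := lt_of_mul_lt_mul_right h6 hs0.le
  rw [lt_div_iff₀ hσ] at h8
  linarith

end Pool.Agent.Lib.MP_13801a_an.ND
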