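import Mathlib
import Pool.Agent.Lib.MP_13801a_an.HH
import Pool.Agent.Lib.MP_13801a_an.ND.MW.Sts

/-!
Lower bound for the right hand side of the virial identity with the marginal weights.
-/

open MeasureTheory Set Filter
open scoped Topology ComplexConjugate

namespace Pool.Agent.Lib.MP_13801a_an.ND

theorem MWLOW_diag {N : ℕ} (A : Fin N → E N → ℝ) (F : Fin N → Fin N → E N → ℝ) :
    ∑ i, ∑ j, ∫ x, (if i = j then A j x else 0) * F i j x = ∑ i, ∫ x, A i x * F i i x := by
  refine Finset.sum_congr rfl fun i _ => ?_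
  rw [Finset.sum_eq_single i (fun j _ hj => by simp [hj.symm]) (by simp)]
  simp

theorem MWLOW_st {N : ℕ} (dg : Fin N → E N → ℂ) (i : Fin N) (x : E N) :
    st dg i i x = ‖dg i x‖ ^ 2 := by
  rw [st, Complex.conj_mul', ← Complex.ofReal_pow, Complex.ofReal_re]

theorem MWLOW (h1 : St_MWMG) (h2 : St_MWPR) (h3 : St_MWDISP) (h4 : St_MWAV) (h5 : St_MWHIGH)
    (h6 : St_HH) (h7 : St_FLU) : St_MWLOW := by
  intro N α lam ε1 ε2 S M σ r r0 Θ w w' k k1 g dg hα hlam hw hk hg hm hM hσ hr0 hΘ hr hε hS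
  have hP := fun i => h2 N i σ r M k k1 g dg hσ hk hg hM
  have hH := fun i => h6 ε1 ε2 S M w w' _ hw (hP i).1.dens
  set h : Fin N → ℝ → ℝ := fun i => hh w (mg k σ i fun x => ‖g x‖ ^ 2) with hdef
  have hc : ∀ i, Continuous (h i) := fun i => (hH i).1.choose_spec.continuous
  have hb : ∀ i y, -S ≤ h i y ∧ h i y ≤ 1 := fun i => (hH i).2.1
  have hab : ∀ i y, |h i y| ≤ |S| + 1 := fun i y => abs_le.2
    ⟨by linarith [(hb i y).1, le_abs_self S], by linarith [(hb i y).2, abs_nonneg S]⟩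
  have hav : ∀ i a, -S ≤ avm k (h i) a ∧ avm k (h i) a ≤ 1 := fun i =>
    ((h4 r k k1 hk).2 (h i) (hc i)).2.1 _ _ (hb i)
  have hi0 := integrable_ms hg.mem0
  have hoff : ∀ i x, x ∉ Sp 1 Θ r0 (fun x => ‖g x‖ ^ 2) → avm k (h i) (x i / σ) = -S := by
    intro i x hx
    refine ((h4 r k k1 hk).2 (h i) (hc i)).2.2.2 _ _ fun y hy => ?_
    have a0 := h5 N i σ r r0 Θ M k k1 _ hσ hr0 hΘ hr hk hi0 (fun x => by positivity)
      (hP i).1.dens x hx y hy
    have a1 : ε2 ≤ em (mg k σ i fun x => ‖g x‖ ^ 2) y := by linarith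
    simp only [hdef, hh]
    rw [(hw.zero _ (Or.inr a1)).1, HH_high hw a1]
    ring
  have t1 : -(S * kin dg) ≤ ∑ i, ∑ j, ∫ x, X1s k σ h i j x * st dg i j x := by
    simp only [X1s]
    rw [MWLOW_diag (fun j x => avm k (h j) (x j / σ)), kin, Finset.mul_sum,
      ← Finset.sum_neg_distrib]
    refine Finset.sum_le_sum fun i _ => ?_
    have hi := integrable_ms (hg.mem1 i)
    simp only [MWLOW_st]
    rw [ms, ← neg_mul, ← integral_const_mul]
    refine integral_mono (hi.const_mul _)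
      ((h1 N i σ k _ hk.c0 hk.cs hi).2.2.2.2.2.1 _ _ (hc i) (hab i)).1 fun x => ?_
    exact mul_le_mul_of_nonneg_right (hav i _).1 (by positivity)
  have t2 : ∑ i, ∫ x, X1s k σ h i i x * ‖g x‖ ^ (α + 2) ≤
      N * -(S * pw α g - (S + 1) * ∫ x in Sp 1 Θ r0 fun x => ‖g x‖ ^ 2, ‖g x‖ ^ (α + 2)) := by
    have hi := hm.integrable_rpow (by linarith)
    have key : ∀ i, ∫ x, X1s k σ h i i x * ‖g x‖ ^ (α + 2) ≤
        -(S * pw α g - (S + 1) * ∫ x in Sp 1 Θ r0 fun x => ‖g x‖ ^ 2, ‖g x‖ ^ (α + 2)) := by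
      intro i
      simp only [X1s, if_true]
      rw [← integral_indicator hS, pw, ← integral_const_mul, ← integral_const_mul, neg_sub,
        ← integral_sub ((hi.indicator hS).const_mul _) (hi.const_mul _)]
      refine integral_mono ((h1 N i σ k _ hk.c0 hk.cs hi).2.2.2.2.2.1 _ _ (hc i) (hab i)).1
        (((hi.indicator hS).const_mul _).sub (hi.const_mul _)) fun x => ?_
      have hp : 0 ≤ ‖g x‖ ^ (α + 2) := by positivity
      by_cases hx : x ∈ Sp 1 Θ r0 fun x => ‖g x‖ ^ 2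
      · simp only [indicator_of_mem hx]
        have := mul_le_mul_of_nonneg_right (hav i (x i / σ)).2 hp
        linarith
      · simp only [indicator_of_notMem hx, hoff i x hx]
        linarith
    refine (Finset.sum_le_sum fun i _ => key i).trans (le_of_eq ?_)
    rw [Finset.sum_const, Finset.card_univ, Fintype.card_fin, nsmul_eq_mul]
  have t3 : -(N * (800 * kin dg)) ≤ ∑ i, ∑ j, ∫ x, X2s k1 σ h i j x * nn g dg j x := by
    simp only [X2s]
    rw [MWLOW_diag (fun j x => -(σ⁻¹ * avm k1 (h j) (x j / σ))) fun _ j x => nn g dg j x]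
    have key : ∀ i, -(800 * kin dg) ≤ ∫ x, -(σ⁻¹ * avm k1 (h i) (x i / σ)) * nn g dg i x := by
      intro i
      have hi := ((h7 N g dg hg.mem0 hg.mem1).1 i).2
      have e1 := ((h1 N i σ k1 _ hk.c1 hk.cs1 hi).2.2.2.2.2.1 _ _ (hc i) (hab i)).2
      have e2 := h3 ε1 ε2 S M w w' _ _ _ _ hw (hP i).1
      rw [(hP i).2] at e2
      have e3 : ∫ y, h i y * (σ * mg k1 σ i (nn g dg i) y) =
          σ * ∫ x : E N, avm k1 (h i) (x i / σ) * nn g dg i x := by
        rw [← e1, ← integral_const_mul]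
        congr 1
        funext y
        ring
      have e4 : ∫ x, -(σ⁻¹ * avm k1 (h i) (x i / σ)) * nn g dg i x =
          -(σ⁻¹ * ∫ x : E N, avm k1 (h i) (x i / σ) * nn g dg i x) := by
        rw [← integral_const_mul, ← integral_neg]
        congr 1
        funext y
        ring
      have e5 : σ * ∫ x : E N, avm k1 (h i) (x i / σ) * nn g dg i x ≤ 800 * (σ ^ 2 * kin dg) := by
        rw [← e3]
        exact (le_abs_self _).trans e2
      rw [e4, neg_le_neg_iff, inv_mul_le_iff₀ hσ]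
      refine le_of_mul_le_mul_left (e5.trans (le_of_eq ?_)) hσ
      ring
    refine le_trans (le_of_eq ?_) (Finset.sum_le_sum fun i _ => key i)
    rw [Finset.sum_const, Finset.card_univ, Fintype.card_fin, nsmul_eq_mul, mul_neg]
  have hc0 : 0 ≤ 2 * α / (α + 2) * lam := by positivity
  have t4 := mul_le_mul_of_nonneg_left t2 hc0
  rw [vir]
  linarith

end Pool.Agent.Lib.MP_13801a_an.ND
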