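import Mathlib
import Pool.Agent.Lib.MP_13801a_an.ND.MW.Sts

/-!
The smoothed marginal of the density of a Sobolev function is a smooth density on the line.
-/

open MeasureTheory Set Filter
open scoped Topology

namespace Pool.Agent.Lib.MP_13801a_an.ND

theorem MWPR_quad {a n c : ℝ} (ha : 0 ≤ a) (hc : 0 ≤ c) (h : n ^ 2 ≤ 4 * (a * c)) (t : ℝ) :
    0 ≤ a * (t * t) + n * t + c := by
  have h1 : (n * t) ^ 2 ≤ (a * (t * t) + c) ^ 2 := by
    nlinarith [mul_le_mul_of_nonneg_right h (sq_nonneg t), sq_nonneg (a * (t * t) - c)]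
  have h2 := (abs_le_of_sq_le_sq' h1 (add_nonneg (mul_nonneg ha (mul_self_nonneg t)) hc)).1
  linarith

theorem MWPR_bw {N : ℕ} (i : Fin N) {σ r : ℝ} {k k1 : ℝ → ℝ} (hk : Kr r k k1) (y : ℝ) :
    BW (fun x : E N => k (y - x i / σ))
      fun j x => if j = i then -(σ⁻¹ * k1 (y - x i / σ)) else 0 := by
  obtain ⟨B, hB⟩ := hk.c0.bounded_above_of_compact_support hk.cs
  obtain ⟨B1, hB1⟩ := hk.c1.bounded_above_of_compact_support hk.cs1
  have hB0 : 0 ≤ B := (norm_nonneg _).trans (hB 0)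
  have hB10 : 0 ≤ |σ⁻¹| * B1 := mul_nonneg (abs_nonneg _) ((norm_nonneg _).trans (hB1 0))
  refine ⟨fun j x => ?_, B + |σ⁻¹| * B1, fun x => ⟨?_, fun j => ?_⟩⟩
  · unfold HasLineDerivAt
    have h1 : HasDerivAt (fun t : ℝ => y - (x i + t * if i = j then 1 else 0) / σ)
        (-((1 * if i = j then 1 else 0) / σ)) 0 :=
      ((((hasDerivAt_id (0 : ℝ)).mul_const _).const_add (x i)).div_const σ).const_sub y
    have h2 := (hk.der (y - (x i + 0 * if i = j then 1 else 0) / σ)).comp (0 : ℝ) h1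
    have e1 : (fun t : ℝ => k (y - (x + t • ee j : E N) i / σ))
        = k ∘ fun t : ℝ => y - (x i + t * if i = j then 1 else 0) / σ := by
      funext t
      simp [ee]
    rw [e1]
    refine h2.congr_deriv ?_
    by_cases h : i = j
    · simp only [h, if_true, zero_mul, add_zero]
      ring
    · simp [h, Ne.symm h]
  · have := hB (y - x i / σ)
    rw [Real.norm_eq_abs] at this
    linarith
  · split_ifs
    · have := mul_le_mul_of_nonneg_left (hB1 (y - x i / σ)) (abs_nonneg σ⁻¹)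
      rw [Real.norm_eq_abs] at this
      rw [abs_neg, abs_mul]
      linarith
    · rw [abs_zero]
      linarith

theorem MWPR (h1 : St_MWMG) (h2 : St_GR) (h3 : St_FLU) : St_MWPR := by
  intro N i σ r M k k1 g dg hσ hk hg hM
  obtain ⟨f1, f2, -, f4, f5, -⟩ := h3 N g dg hg.mem0 hg.mem1
  have iρ := integrable_ms hg.mem0
  obtain ⟨a1, -, a3, ⟨C, a4⟩, a5, a6, a7⟩ := h1 N i σ k _ hk.c0 hk.cs iρ
  obtain ⟨-, -, -, ⟨C1, b4⟩, -⟩ := h1 N i σ k1 _ hk.c1 hk.cs1 iρ
  obtain ⟨c1, -, -, -, -, -, c7⟩ := h1 N i σ k _ hk.c0 hk.cs (f1 i).2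
  obtain ⟨-, d2, -⟩ := h1 N i σ k1 _ hk.c1 hk.cs1 (f1 i).2
  obtain ⟨e1, e2, e3, -, -, e6, -⟩ := h1 N i σ k _ hk.c0 hk.cs f2
  have hkd : ∀ x, 0 ≤ kd dg x := fun x => Finset.sum_nonneg fun _ _ => sq_nonneg _
  have hav : ∀ a, avm k (fun _ => 1) a = 1 := fun a => by simpa [avm] using hk.one
  have hd := a7 k1 hk.der hk.c1 hk.cs1
  have key : ∀ y, mg k1 σ i (fun x => ‖g x‖ ^ 2) y = σ * mg k σ i (nn g dg i) y := by
    intro y
    have h := h2 N g dg hg _ _ (MWPR_bw (σ := σ) i hk y) i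
    simp only [if_true, neg_mul, mul_assoc, integral_neg, integral_const_mul, neg_inj] at h
    unfold mg
    rw [← h, mul_inv_cancel_left₀ hσ.ne']
  have m1 := (a6 (fun _ => 1) 1 continuous_const fun _ => by simp).2
  have m2 := (e6 (fun _ => 1) 1 continuous_const fun _ => by simp).2
  simp only [hav, one_mul] at m1 m2
  refine ⟨⟨⟨⟨C1.toNNReal, lipschitzWith_of_nnnorm_deriv_le (fun y => (hd y).differentiableAt)
    fun y => ?_⟩, fun y => integral_nonneg fun x => mul_nonneg (hk.nonneg _) (sq_nonneg _), a3,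
    m1.le.trans hM, ⟨C, fun y => (le_abs_self _).trans (a4 y)⟩, fun η hη => ?_⟩,
    fun y => key y ▸ hd y, fun y => (c7 k1 hk.der hk.c1 hk.cs1 y).const_mul σ,
    continuous_const.mul d2, continuous_const.mul e2, e3.const_mul _,
    fun y => mul_nonneg (sq_nonneg _)
      (integral_nonneg fun x => mul_nonneg (hk.nonneg _) (hkd x)), fun y => ?_⟩, ?_⟩
  · rw [(hd y).deriv, ← NNReal.coe_le_coe, coe_nnnorm, Real.norm_eq_abs]
    exact (b4 y).trans (Real.le_coe_toNNReal C1)
  · obtain ⟨R, hR⟩ := a5 η hη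
    exact ⟨R, fun y hy => (le_abs_self _).trans (hR y hy)⟩
  · have h := discrim_le_zero (a := mg k σ i (fun x => ‖g x‖ ^ 2) y)
      (b := mg k σ i (nn g dg i) y) (c := mg k σ i (kd dg) y) fun t => by
        have i1 : Integrable fun x : E N => k (y - x i / σ) * ‖g x‖ ^ 2 * (t * t)
            + k (y - x i / σ) * nn g dg i x * t := ((a1 y).mul_const _).add ((c1 y).mul_const _)
        unfold mg
        rw [← integral_mul_const, ← integral_mul_const,
          ← integral_add ((a1 y).mul_const _) ((c1 y).mul_const _), ← integral_add i1 (e1 y)]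
        refine integral_nonneg fun x => ?_
        have := mul_nonneg (hk.nonneg (y - x i / σ)) (MWPR_quad (sq_nonneg ‖g x‖) (hkd x)
          ((Finset.single_le_sum (f := fun j => nn g dg j x ^ 2) (fun _ _ => sq_nonneg _)
            (Finset.mem_univ i)).trans (f5 x).2) t)
        simp only [Pi.zero_apply]
        linarith
    rw [discrim] at h
    nlinarith [mul_le_mul_of_nonneg_left h (sq_nonneg σ)]
  · rw [integral_const_mul, m2, f4]

end Pool.Agent.Lib.MP_13801a_an.ND
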