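import Mathlib
import Pool.Agent.Lib.MP_13801a_an.ND.MW.Sts

/-!
Marginals: integrability, continuity, decay, Fubini and the derivative.
-/

open MeasureTheory Set Filter
open scoped Topology

namespace Pool.Agent.Lib.MP_13801a_an.ND

variable {N : ℕ}

theorem MWMG_bdd {k : ℝ → ℝ} (hk : Continuous k) (hs : HasCompactSupport k) :
    ∃ C : ℝ, 0 ≤ C ∧ ∀ u, |k u| ≤ C := by
  obtain ⟨C, hC⟩ := hk.bounded_above_of_compact_support hs
  exact ⟨C, (norm_nonneg _).trans (hC 0), fun u => by simpa [Real.norm_eq_abs] using hC u⟩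

theorem MWMG_cont (i : Fin N) (σ : ℝ) : Continuous fun x : E N => x i / σ := by
  fun_prop

theorem MWMG_meas (i : Fin N) (σ : ℝ) {k : ℝ → ℝ} {f : E N → ℝ} (hk : Continuous k)
    (hf : Integrable f) (y : ℝ) :
    AEStronglyMeasurable (fun x : E N => k (y - x i / σ) * f x) volume :=
  ((hk.comp (continuous_const.sub (MWMG_cont i σ))).aestronglyMeasurable).mul
    hf.aestronglyMeasurable

theorem MWMG_le (i : Fin N) (σ : ℝ) {k : ℝ → ℝ} (f : E N → ℝ) {C : ℝ} (hC : ∀ u, |k u| ≤ C)
    (y : ℝ) (x : E N) : ‖k (y - x i / σ) * f x‖ ≤ C * ‖f x‖ := by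
  rw [norm_mul, Real.norm_eq_abs]
  exact mul_le_mul_of_nonneg_right (hC _) (norm_nonneg _)

theorem MWMG_int (i : Fin N) (σ : ℝ) {k : ℝ → ℝ} {f : E N → ℝ} (hk : Continuous k)
    (hs : HasCompactSupport k) (hf : Integrable f) (y : ℝ) :
    Integrable fun x : E N => k (y - x i / σ) * f x := by
  obtain ⟨C, -, hC⟩ := MWMG_bdd hk hs
  exact (hf.norm.const_mul C).mono' (MWMG_meas i σ hk hf y)
    (Eventually.of_forall fun x => MWMG_le i σ f hC y x)

theorem MWMG_c0 (i : Fin N) (σ : ℝ) {k : ℝ → ℝ} {f : E N → ℝ} (hk : Continuous k)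
    (hs : HasCompactSupport k) (hf : Integrable f) : Continuous (mg k σ i f) := by
  obtain ⟨C, -, hC⟩ := MWMG_bdd hk hs
  refine continuous_of_dominated (bound := fun x => C * ‖f x‖) (fun y => MWMG_meas i σ hk hf y)
    (fun y => Eventually.of_forall fun x => MWMG_le i σ f hC y x) (hf.norm.const_mul C)
    (Eventually.of_forall fun x => ?_)
  exact (hk.comp (continuous_id.sub continuous_const)).mul continuous_const

theorem MWMG_prod (i : Fin N) (σ : ℝ) {k ψ : ℝ → ℝ} {f : E N → ℝ} {B : ℝ} (hk : Continuous k)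
    (hs : HasCompactSupport k) (hf : Integrable f) (hψ : Continuous ψ) (hB : ∀ y, |ψ y| ≤ B) :
    Integrable (fun p : ℝ × E N => ψ p.1 * (k (p.1 - p.2 i / σ) * f p.2))
      ((volume : Measure ℝ).prod volume) := by
  have hki : Integrable k := hk.integrable_of_hasCompactSupport hs
  have hc : Continuous fun p : ℝ × E N => k (p.1 - p.2 i / σ) :=
    hk.comp (continuous_fst.sub ((MWMG_cont i σ).comp continuous_snd))
  have hm0 : AEStronglyMeasurable (fun p : ℝ × E N => k (p.1 - p.2 i / σ) * f p.2)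
      ((volume : Measure ℝ).prod volume) :=
    hc.aestronglyMeasurable.mul hf.aestronglyMeasurable.comp_snd
  have h0 : Integrable (fun p : ℝ × E N => k (p.1 - p.2 i / σ) * f p.2)
      ((volume : Measure ℝ).prod volume) := by
    rw [integrable_prod_iff' hm0]
    refine ⟨Eventually.of_forall fun x => ?_, ?_⟩
    · exact (hki.comp_sub_right (x i / σ)).mul_const (f x)
    · have he : (fun x : E N => ∫ y : ℝ, ‖k (y - x i / σ) * f x‖) =
          fun x => (∫ y : ℝ, ‖k y‖) * ‖f x‖ := by
        funext x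
        simp only [norm_mul]
        rw [integral_mul_const, integral_sub_right_eq_self (fun y => ‖k y‖) (x i / σ)]
      simp only []
      rw [he]
      exact hf.norm.const_mul _
  refine (h0.norm.const_mul B).mono'
    (((hψ.comp continuous_fst).aestronglyMeasurable).mul hm0) (Eventually.of_forall fun p => ?_)
  rw [norm_mul, Real.norm_eq_abs]
  exact mul_le_mul_of_nonneg_right (hB _) (norm_nonneg _)

theorem MWMG_av (i : Fin N) (σ : ℝ) (k ψ : ℝ → ℝ) (f : E N → ℝ) (x : E N) :
    ∫ y : ℝ, ψ y * (k (y - x i / σ) * f x) = avm k ψ (x i / σ) * f x := by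
  unfold avm
  rw [← integral_mul_const, ← integral_add_left_eq_self
    (fun y : ℝ => ψ y * (k (y - x i / σ) * f x)) (x i / σ)]
  refine integral_congr_ae (Eventually.of_forall fun u => ?_)
  simp only [add_sub_cancel_left]
  ring

theorem MWMG_fub (i : Fin N) (σ : ℝ) {k ψ : ℝ → ℝ} {f : E N → ℝ} {B : ℝ} (hk : Continuous k)
    (hs : HasCompactSupport k) (hf : Integrable f) (hψ : Continuous ψ) (hB : ∀ y, |ψ y| ≤ B) :
    (Integrable fun x : E N => avm k ψ (x i / σ) * f x) ∧
      ∫ y, ψ y * mg k σ i f y = ∫ x : E N, avm k ψ (x i / σ) * f x := by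
  have h := MWMG_prod i σ hk hs hf hψ hB
  constructor
  · have h2 := h.integral_prod_right
    simp only [MWMG_av] at h2
    exact h2
  · have h3 := integral_integral_swap
      (f := fun (y : ℝ) (x : E N) => ψ y * (k (y - x i / σ) * f x)) h
    simp only [MWMG_av] at h3
    rw [← h3]
    refine integral_congr_ae (Eventually.of_forall fun y => ?_)
    simp only [mg]
    rw [integral_const_mul]

theorem MWMG_i1 (i : Fin N) (σ : ℝ) {k : ℝ → ℝ} {f : E N → ℝ} (hk : Continuous k)
    (hs : HasCompactSupport k) (hf : Integrable f) : Integrable (mg k σ i f) := by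
  have h := (MWMG_prod i σ (ψ := fun _ => 1) (B := 1) hk hs hf continuous_const
    (fun _ => by simp)).integral_prod_left
  simp only [one_mul] at h
  exact h

theorem MWMG_decay (i : Fin N) (σ : ℝ) {k : ℝ → ℝ} {f : E N → ℝ} (hk : Continuous k)
    (hs : HasCompactSupport k) (hf : Integrable f) (η : ℝ) (hη : 0 < η) :
    ∃ R : ℝ, ∀ y, R ≤ |y| → |mg k σ i f y| ≤ η := by
  obtain ⟨C, -, hC⟩ := MWMG_bdd hk hs
  obtain ⟨T, hT⟩ := hs.isCompact.isBounded.subset_closedBall 0
  have hz : ∀ u, T < |u| → k u = 0 := fun u hu => by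
    by_contra hne
    have h1 := hT (subset_tsupport k (Function.mem_support.2 hne))
    rw [Metric.mem_closedBall, Real.dist_eq, sub_zero] at h1
    exact absurd h1 (not_le.2 hu)
  have hl : Tendsto (mg k σ i f) (comap (fun y : ℝ => |y|) atTop) (𝓝 (∫ _x : E N, (0 : ℝ))) := by
    refine tendsto_integral_filter_of_dominated_convergence (fun x => C * ‖f x‖)
      (Eventually.of_forall fun y => MWMG_meas i σ hk hf y)
      (Eventually.of_forall fun y => Eventually.of_forall fun x => MWMG_le i σ f hC y x)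
      (hf.norm.const_mul C) (Eventually.of_forall fun x => ?_)
    refine tendsto_const_nhds.congr' ?_
    have he : ∀ᶠ y : ℝ in comap (fun y : ℝ => |y|) atTop, T + |x i / σ| < |y| :=
      (eventually_gt_atTop (T + |x i / σ|)).comap _
    filter_upwards [he] with y hy
    rw [hz _ (by have := abs_sub_abs_le_abs_sub y (x i / σ); linarith), zero_mul]
  rw [integral_zero] at hl
  have h2 := (Metric.tendsto_nhds.1 hl) η hη
  rw [eventually_comap, eventually_atTop] at h2
  obtain ⟨R, hR⟩ := h2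
  refine ⟨R, fun y hy => ?_⟩
  have h3 := hR _ hy y rfl
  rw [Real.dist_eq, sub_zero] at h3
  exact h3.le

theorem MWMG_der (i : Fin N) (σ : ℝ) {k k1 : ℝ → ℝ} {f : E N → ℝ} (hk : Continuous k)
    (hs : HasCompactSupport k) (hf : Integrable f) (hd : ∀ u, HasDerivAt k (k1 u) u)
    (hk1 : Continuous k1) (hs1 : HasCompactSupport k1) (y : ℝ) :
    HasDerivAt (mg k σ i f) (mg k1 σ i f y) y := by
  obtain ⟨C, -, hC⟩ := MWMG_bdd hk1 hs1
  refine (hasDerivAt_integral_of_dominated_loc_of_deriv_le (s := univ)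
    (F := fun (y : ℝ) (x : E N) => k (y - x i / σ) * f x)
    (F' := fun (y : ℝ) (x : E N) => k1 (y - x i / σ) * f x) (bound := fun x => C * ‖f x‖)
    univ_mem (Eventually.of_forall fun z => MWMG_meas i σ hk hf z) (MWMG_int i σ hk hs hf y)
    (MWMG_meas i σ hk1 hf y)
    (Eventually.of_forall fun x z _ => MWMG_le i σ f hC z x) (hf.norm.const_mul C)
    (Eventually.of_forall fun x z _ => ?_)).2
  exact ((hd (z - x i / σ)).comp_sub_const z (x i / σ)).mul_const (f x)

theorem MWMG : St_MWMG := by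
  intro N i σ k f hk hs hf
  refine ⟨MWMG_int i σ hk hs hf, MWMG_c0 i σ hk hs hf, MWMG_i1 i σ hk hs hf, ?_,
    MWMG_decay i σ hk hs hf, fun ψ B hψ hB => MWMG_fub i σ hk hs hf hψ hB,
    fun k1 hd hk1 hs1 => MWMG_der i σ hk hs hf hd hk1 hs1⟩
  obtain ⟨C, -, hC⟩ := MWMG_bdd hk hs
  refine ⟨∫ x, C * ‖f x‖, fun y => ?_⟩
  rw [← Real.norm_eq_abs]
  exact norm_integral_le_of_norm_le (hf.norm.const_mul C)
    (Eventually.of_forall fun x => MWMG_le i σ f hC y x)

end Pool.Agent.Lib.MP_13801a_an.ND
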